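import Pool.Agent.Lib_helper88.PolyTime.Lists

/-!
# Polynomial-time functions: unary numbers, maps and zips of lists
-/

set_option autoImplicit false
set_option linter.dupNamespace false

namespace Pool.Agent.PT

open Function N487b59b3

theorem PT.length_bound {α β : Type} [N487b59b3 α] [N487b59b3 β] {f : α → β} (hf : PT f) :
    ∃ q : Polynomial ℕ, ∀ a, (enc (f a)).length ≤ q.eval (enc a).length := by
  obtain ⟨c, p, hc⟩ := hf
  refine ⟨Polynomial.X + p, fun a => ?_⟩
  have := (hc a).length_le 0
  simpa [single] using this

theorem length_enc_pair {α β : Type} [N487b59b3 α] [N487b59b3 β] (a : α) (b : β) :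
    (enc (a, b)).length = 2 * (enc a).length + 1 + (enc b).length := by
  rw [enc_pair, List.length_append, length_delimit]

theorem length_enc_cons {α : Type} [N487b59b3 α] (a : α) (l : List α) :
    (enc (a :: l)).length = 2 * (enc a).length + 1 + (enc l).length := by
  rw [enc_cons, List.length_append, length_delimit]

theorem length_enc_mem {α : Type} [N487b59b3 α] {a : α} {l : List α} (h : a ∈ l) :
    (enc a).length ≤ (enc l).length := by
  obtain ⟨l1, l2, rfl⟩ := List.append_of_mem h
  rw [enc_append, List.length_append, length_enc_cons]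
  omega

/-- iteration along a list with additive growth -/
theorem PT.foldl_add {ε σ α : Type} [N487b59b3 ε] [N487b59b3 σ] [N487b59b3 α] {g : ε × σ × α → σ}
    (hg : PT g) (r : Polynomial ℕ)
    (hr : ∀ (e : ε) (s : σ) (a : α), (enc (g (e, s, a))).length ≤
      (enc s).length + r.eval ((enc e).length + (enc a).length)) :
    PT (fun p : ε × σ × List α => p.2.2.foldl (fun s a => g (p.1, s, a)) p.2.1) := by
  refine PT.foldl hg (Polynomial.X + Polynomial.X * r) ?_
  intro e s l
  have key : ∀ (B : ℕ) (l : List α) (s : σ), (∀ a ∈ l, (enc a).length ≤ B) →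
      (enc (l.foldl (fun s a => g (e, s, a)) s)).length ≤
        (enc s).length + l.length * r.eval ((enc e).length + B) := by
    intro B l
    induction l with
    | nil => intro s _; simp
    | cons a l ih =>
      intro s h
      have h1 := ih (g (e, s, a)) (fun b hb => h b (by simp [hb]))
      have h2 := hr e s a
      have h3 := poly_mono r (show (enc e).length + (enc a).length ≤ (enc e).length + B by
        have := h a (by simp); omega)
      rw [List.foldl_cons, List.length_cons, add_one_mul]
      omega
  have h1 := key (enc l).length l s (fun a ha => length_enc_mem ha)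
  have hlen : (enc (e, s, l)).length = 2 * (enc e).length + 1 + (2 * (enc s).length + 1 +
      (enc l).length) := by rw [length_enc_pair, length_enc_pair]
  have h2 := poly_mono r (show (enc e).length + (enc l).length ≤ (enc (e, s, l)).length by omega)
  have h3 := length_le_enc l
  have h4 : l.length * r.eval ((enc e).length + (enc l).length) ≤
      (enc (e, s, l)).length * r.eval (enc (e, s, l)).length :=
    Nat.mul_le_mul (by omega) h2
  simp only [Polynomial.eval_add, Polynomial.eval_mul, Polynomial.eval_X]
  omega

/-- composite form of `foldl_add` -/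
theorem PT.fold {δ ε σ α : Type} [N487b59b3 δ] [N487b59b3 ε] [N487b59b3 σ] [N487b59b3 α]
    {g : ε × σ × α → σ} {e : δ → ε} {s : δ → σ} {l : δ → List α}
    (hg : PT g) (r : Polynomial ℕ)
    (hr : ∀ (e : ε) (s : σ) (a : α), (enc (g (e, s, a))).length ≤
      (enc s).length + r.eval ((enc e).length + (enc a).length))
    (he : PT e) (hs : PT s) (hl : PT l) :
    PT (fun d => (l d).foldl (fun s a => g (e d, s, a)) (s d)) :=
  (PT.foldl_add hg r hr).comp (he.pair (hs.pair hl))

/-! ### projections -/

theorem PT.comp_fst {α β γ : Type} [N487b59b3 α] [N487b59b3 β] [N487b59b3 γ] {f : α → β × γ}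
    (hf : PT f) : PT (fun a => (f a).1) := PT.fst.comp hf

theorem PT.comp_snd {α β γ : Type} [N487b59b3 α] [N487b59b3 β] [N487b59b3 γ] {f : α → β × γ}
    (hf : PT f) : PT (fun a => (f a).2) := PT.snd.comp hf

/-! ### Booleans -/

theorem PT.not {α : Type} [N487b59b3 α] {f : α → Bool} (hf : PT f) : PT (fun a => !(f a)) :=
  (PT.ite hf (PT.const false) (PT.const true)).congr fun a => by cases f a <;> rfl

theorem PT.and {α : Type} [N487b59b3 α] {f g : α → Bool} (hf : PT f) (hg : PT g) :
    PT (fun a => f a && g a) :=
  (PT.ite hf hg (PT.const false)).congr fun a => by cases f a <;> rfl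

theorem PT.or {α : Type} [N487b59b3 α] {f g : α → Bool} (hf : PT f) (hg : PT g) :
    PT (fun a => f a || g a) :=
  (PT.ite hf (PT.const true) hg).congr fun a => by cases f a <;> rfl

theorem PT.beq {α : Type} [N487b59b3 α] {f g : α → Bool} (hf : PT f) (hg : PT g) :
    PT (fun a => f a == g a) :=
  (PT.ite hf hg hg.not).congr fun a => by cases f a <;> cases g a <;> rfl

/-! ### lists -/

theorem PT.reverse {α : Type} [N487b59b3 α] : PT (fun l : List α => l.reverse) := by
  have h := PT.fold (δ := List α) (ε := Bool) (σ := List α) (α := α)
    (g := fun p => p.2.2 :: p.2.1) (e := fun _ => true) (s := fun _ => []) (l := fun l => l)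
    (PT.cons PT.snd.comp_snd PT.snd.comp_fst) (2 * Polynomial.X + 1) (by
      intro e s a
      rw [length_enc_cons]
      simp
      omega) (PT.const true) (PT.const []) PT.id
  refine h.congr fun l => ?_
  have : ∀ (l m : List α), l.foldl (fun s a => a :: s) m = l.reverse ++ m := by
    intro l
    induction l with
    | nil => intro m; rfl
    | cons a l ih => intro m; simp [ih]
  simpa using this l []

theorem PT.append {α β : Type} [N487b59b3 α] [N487b59b3 β] {f g : α → List β} (hf : PT f)
    (hg : PT g) : PT (fun a => f a ++ g a) := by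
  have h := PT.fold (δ := List β × List β) (ε := Bool) (σ := List β) (α := β)
    (g := fun p => p.2.2 :: p.2.1) (e := fun _ => true) (s := fun d => d.2)
    (l := fun d => d.1.reverse)
    (PT.cons PT.snd.comp_snd PT.snd.comp_fst) (2 * Polynomial.X + 1) (by
      intro e s a
      rw [length_enc_cons]
      simp
      omega) (PT.const true) PT.snd (PT.reverse.comp PT.fst)
  have h2 : PT (fun d : List β × List β => d.1 ++ d.2) := by
    refine h.congr fun d => ?_
    have : ∀ (l m : List β), l.reverse.foldl (fun s a => a :: s) m = l ++ m := by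
      intro l
      induction l with
      | nil => intro m; rfl
      | cons a l ih => intro m; simp [ih]
    exact this d.1 d.2
  exact h2.comp (hf.pair hg)

theorem PT.map {δ ε α β : Type} [N487b59b3 δ] [N487b59b3 ε] [N487b59b3 α] [N487b59b3 β]
    {g : ε × α → β} {e : δ → ε} {l : δ → List α} (hg : PT g) (he : PT e) (hl : PT l) :
    PT (fun d => (l d).map (fun a => g (e d, a))) := by
  obtain ⟨q, hq⟩ := hg.length_bound
  have h := PT.fold (δ := δ) (ε := ε) (σ := List β) (α := α)
    (g := fun p => g (p.1, p.2.2) :: p.2.1) (e := e) (s := fun _ => []) (l := l)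
    (PT.cons (hg.comp (PT.fst.pair PT.snd.comp_snd)) PT.snd.comp_fst)
    (2 * q.comp (2 * Polynomial.X + 1) + 1) (by
      intro e s a
      rw [length_enc_cons]
      have h1 := hq (e, a)
      have h2 := poly_mono q (show (enc (e, a)).length ≤
        2 * ((enc e).length + (enc a).length) + 1 by rw [length_enc_pair]; omega)
      simp only [Polynomial.eval_add, Polynomial.eval_mul, Polynomial.eval_X,
        Polynomial.eval_ofNat, Polynomial.eval_comp, Polynomial.eval_one]
      omega) he (PT.const []) hl
  refine (PT.reverse.comp h).congr fun d => ?_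
  have : ∀ (l : List α) (m : List β), l.foldl (fun s a => g (e d, a) :: s) m =
      (l.map (fun a => g (e d, a))).reverse ++ m := by
    intro l
    induction l with
    | nil => intro m; rfl
    | cons a l ih => intro m; simp [ih]
  simp [this]

/-- step of `zip` -/
def zipStep {α β : Type} [Inhabited β] (p : Bool × (List β × List (α × β)) × α) :
    List β × List (α × β) :=
  if p.2.1.1.isEmpty then p.2.1 else (p.2.1.1.tail, (p.2.2, p.2.1.1.headD default) :: p.2.1.2)

theorem zipStep_nil {α β : Type} [Inhabited β] (e : Bool) (m : List (α × β)) (a : α) :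
    zipStep (e, ([], m), a) = ([], m) := rfl

theorem zipStep_cons {α β : Type} [Inhabited β] (e : Bool) (b : β) (l : List β)
    (m : List (α × β)) (a : α) : zipStep (e, (b :: l, m), a) = (l, (a, b) :: m) := rfl

theorem PT.zip {δ α β : Type} [N487b59b3 δ] [N487b59b3 α] [N487b59b3 β] [Inhabited β]
    {f : δ → List α} {g : δ → List β} (hf : PT f) (hg : PT g) :
    PT (fun d => (f d).zip (g d)) := by
  have hstep : PT (fun p : Bool × (List β × List (α × β)) × α => zipStep p) := by
    refine PT.ite (PT.isEmpty.comp PT.snd.comp_fst.comp_fst) PT.snd.comp_fst ?_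
    refine PT.pair (PT.tail.comp PT.snd.comp_fst.comp_fst) (PT.cons ?_ PT.snd.comp_fst.comp_snd)
    exact PT.pair PT.snd.comp_snd
      (PT.headD.comp ((PT.const default).pair PT.snd.comp_fst.comp_fst))
  have h := PT.fold (δ := δ) (ε := Bool) (σ := List β × List (α × β)) (α := α)
    (g := zipStep) (e := fun _ => true) (s := fun d => (g d, [])) (l := f)
    hstep (4 * Polynomial.X + 3) (by
      intro e s a
      obtain ⟨rest, acc⟩ := s
      cases rest with
      | nil => rw [zipStep_nil]; omega
      | cons b l =>
        rw [zipStep_cons, length_enc_pair, length_enc_pair, length_enc_cons, length_enc_cons,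
          length_enc_pair]
        simp only [Polynomial.eval_add, Polynomial.eval_mul, Polynomial.eval_X,
          Polynomial.eval_ofNat]
        omega) (PT.const true) (hg.pair (PT.const [])) hf
  refine (PT.reverse.comp h.comp_snd).congr fun d => ?_
  have : ∀ (l : List α) (m : List β) (acc : List (α × β)),
      (l.foldl (fun s a => zipStep (true, s, a)) (m, acc)).2 = (l.zip m).reverse ++ acc := by
    intro l
    induction l with
    | nil => intro m acc; rfl
    | cons a l ih =>
      intro m acc
      cases m with
      | nil =>
        rw [List.foldl_cons, zipStep_nil, ih]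
        simp
      | cons b m =>
        rw [List.foldl_cons, zipStep_cons, ih]
        simp
  simp [this]

/-! ### unary numbers -/

/-- a natural number, encoded in unary -/
structure U : Type where
  /-- the value -/
  val : ℕ
deriving DecidableEq, Inhabited

instance : N487b59b3 U where
  encode u := List.replicate u.val false
  decode l := some ⟨l.length⟩
  decode_encode u := by simp

instance instEncUnit : N487b59b3 Unit where
  encode _ := []
  decode _ := some ()
  decode_encode _ := rfl

theorem enc_U (u : U) : enc u = List.replicate u.val false := rfl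

theorem length_enc_U (u : U) : (enc u).length = u.val := by
  rw [enc_U, List.length_replicate]

theorem enc_units (n : ℕ) : enc (List.replicate n ()) = List.replicate n false := by
  induction n with
  | zero => rfl
  | succ n ih =>
    rw [List.replicate_succ, enc_cons, ih]
    rfl

theorem PT.toUnits {α : Type} [N487b59b3 α] {f : α → U} (hf : PT f) :
    PT (fun a => List.replicate (f a).val ()) :=
  (PT.of_enc_eq (f := fun u : U => List.replicate u.val ()) fun u => enc_units u.val).comp hf

theorem PT.usucc {α : Type} [N487b59b3 α] {f : α → U} (hf : PT f) :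
    PT (fun a => U.mk ((f a).val + 1)) := by
  have : PT (fun u : U => U.mk (u.val + 1)) := by
    refine ⟨.push 0 false, 1, fun u => ?_⟩
    refine (Runs.push 0 false _).congr ?_ (by simp)
    funext w
    simp only [update_apply, single, enc_U, List.replicate_succ]
    split_ifs <;> simp_all
  exact this.comp hf

theorem PT.upred {α : Type} [N487b59b3 α] {f : α → U} (hf : PT f) :
    PT (fun a => U.mk ((f a).val - 1)) := by
  have : PT (fun u : U => U.mk (u.val - 1)) := by
    refine ⟨.pop 0, 1, fun u => ?_⟩
    refine (Runs.pop 0 _).congr ?_ (by simp)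
    funext w
    simp only [update_apply, single, enc_U]
    split_ifs <;> simp_all
  exact this.comp hf

theorem PT.uzero {α : Type} [N487b59b3 α] {f : α → U} (hf : PT f) :
    PT (fun a => decide ((f a).val = 0)) :=
  (PT.isEmpty.comp hf.toUnits).congr fun a => by
    rcases h : (f a).val with _ | m
    · simp
    · simp [List.replicate_succ]

theorem foldl_units {σ : Type} (f : σ → σ) (n : ℕ) (s : σ) :
    (List.replicate n ()).foldl (fun s _ => f s) s = f^[n] s := by
  induction n generalizing s with
  | zero => rfl
  | succ n ih => rw [List.replicate_succ, List.foldl_cons, ih, Function.iterate_succ_apply]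

/-- iteration of a function with additive growth -/
theorem PT.iter {δ ε σ : Type} [N487b59b3 δ] [N487b59b3 ε] [N487b59b3 σ]
    {g : ε × σ → σ} {e : δ → ε} {s : δ → σ} {n : δ → U}
    (hg : PT g) (r : Polynomial ℕ)
    (hr : ∀ (e : ε) (s : σ), (enc (g (e, s))).length ≤ (enc s).length + r.eval (enc e).length)
    (he : PT e) (hs : PT s) (hn : PT n) :
    PT (fun d => (fun s => g (e d, s))^[(n d).val] (s d)) := by
  refine (PT.fold (g := fun p : ε × σ × Unit => g (p.1, p.2.1))
    (hg.comp (PT.fst.pair PT.snd.comp_fst)) r ?_ he hs hn.toUnits).congr fun d => ?_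
  · intro e s a
    refine le_trans (hr e s) ?_
    have := poly_mono r (Nat.le_add_right (enc e).length (enc a).length)
    omega
  · exact foldl_units (fun s => g (e d, s)) _ _

theorem iter_succ (m n : ℕ) : (fun s : U => U.mk (s.val + 1))^[n] ⟨m⟩ = ⟨m + n⟩ := by
  induction n generalizing m with
  | zero => rfl
  | succ n ih =>
    rw [Function.iterate_succ_apply, ih]
    congr 1
    dsimp only
    omega

theorem PT.uadd {α : Type} [N487b59b3 α] {f g : α → U} (hf : PT f) (hg : PT g) :
    PT (fun a => U.mk ((f a).val + (g a).val)) := by
  refine (PT.iter (g := fun p : Bool × U => U.mk (p.2.val + 1)) (e := fun _ => true)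
    (s := f) (n := g) PT.snd.usucc 1 ?_ (PT.const true) hf hg).congr fun a => ?_
  · intro e s
    rw [length_enc_U, length_enc_U]
    simp
  · exact iter_succ _ _

theorem iter_pred (m n : ℕ) : (fun s : U => U.mk (s.val - 1))^[n] ⟨m⟩ = ⟨m - n⟩ := by
  induction n generalizing m with
  | zero => rfl
  | succ n ih =>
    rw [Function.iterate_succ_apply, ih]
    congr 1
    dsimp only
    omega

theorem PT.usub {α : Type} [N487b59b3 α] {f g : α → U} (hf : PT f) (hg : PT g) :
    PT (fun a => U.mk ((f a).val - (g a).val)) := by
  refine (PT.iter (g := fun p : Bool × U => U.mk (p.2.val - 1)) (e := fun _ => true)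
    (s := f) (n := g) PT.snd.upred 1 ?_ (PT.const true) hf hg).congr fun a => ?_
  · intro e s
    rw [length_enc_U, length_enc_U]
    simp
    omega
  · exact iter_pred _ _

theorem PT.ule {α : Type} [N487b59b3 α] {f g : α → U} (hf : PT f) (hg : PT g) :
    PT (fun a => decide ((f a).val ≤ (g a).val)) :=
  (hf.usub hg).uzero.congr fun a => by
    simp [Nat.sub_eq_zero_iff_le]

theorem iter_add (k m n : ℕ) : (fun s : U => U.mk (s.val + k))^[n] ⟨m⟩ = ⟨m + n * k⟩ := by
  induction n generalizing m with
  | zero => simp
  | succ n ih =>
    rw [Function.iterate_succ_apply, ih]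
    congr 1
    ring

theorem PT.umul {α : Type} [N487b59b3 α] {f g : α → U} (hf : PT f) (hg : PT g) :
    PT (fun a => U.mk ((f a).val * (g a).val)) := by
  refine (PT.iter (g := fun p : U × U => U.mk (p.2.val + p.1.val)) (e := g)
    (s := fun _ => U.mk 0) (n := f) (PT.snd.uadd PT.fst) Polynomial.X ?_ hg
    (PT.const _) hf).congr fun a => ?_
  · intro e s
    rw [length_enc_U, length_enc_U]
    simp [length_enc_U]
  · refine (iter_add (g a).val 0 (f a).val).trans ?_
    simp

theorem iter_half (n : ℕ) : ∀ (b : Bool) (m : ℕ),
    (fun p : Bool × U => (!p.1, if p.1 then U.mk (p.2.val + 1) else p.2))^[n] (b, ⟨m⟩) =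
      (b ^^ n.bodd, ⟨m + (n + b.toNat) / 2⟩) := by
  induction n with
  | zero => intro b m; cases b <;> simp
  | succ n ih =>
    intro b m
    rw [Function.iterate_succ_apply]
    cases b
    · simp only [Bool.not_false, Bool.false_eq_true, if_false]
      rw [ih, Nat.bodd_succ]
      simp
    · simp only [Bool.not_true, if_true]
      rw [ih, Nat.bodd_succ]
      simp only [Bool.toNat_false, Bool.toNat_true, Bool.true_xor, Bool.false_xor, Bool.not_not,
        Prod.mk.injEq, true_and, U.mk.injEq]
      omega

theorem PT.uhalf {α : Type} [N487b59b3 α] {f : α → U} (hf : PT f) :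
    PT (fun a => U.mk ((f a).val / 2)) := by
  refine (PT.iter (g := fun p : Bool × (Bool × U) =>
      (!p.2.1, if p.2.1 then U.mk (p.2.2.val + 1) else p.2.2)) (e := fun _ => true)
    (s := fun _ => (false, U.mk 0)) (n := f)
    (PT.pair PT.snd.comp_fst.not (PT.ite PT.snd.comp_fst PT.snd.comp_snd.usucc PT.snd.comp_snd))
    1 ?_ (PT.const true) (PT.const _) hf).comp_snd.congr fun a => ?_
  · intro e s
    obtain ⟨b, s⟩ := s
    cases b
    · rw [length_enc_pair, length_enc_pair]
      simp [length_enc_U, enc_bool]
    · rw [length_enc_pair, length_enc_pair]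
      simp [length_enc_U, enc_bool]
      omega
  · have := iter_half (f a).val false 0
    simp only at this ⊢
    rw [this]
    simp

theorem PT.length {α β : Type} [N487b59b3 α] [N487b59b3 β] {f : α → List β} (hf : PT f) :
    PT (fun a => U.mk (f a).length) := by
  refine (PT.fold (g := fun p : Bool × U × β => U.mk (p.2.1.val + 1)) (e := fun _ => true)
    (s := fun _ => U.mk 0) (l := f) PT.snd.comp_fst.usucc 1 ?_ (PT.const true) (PT.const _)
    hf).congr fun a => ?_
  · intro e s b
    rw [length_enc_U, length_enc_U]
    simp
  · have : ∀ (l : List β) (m : ℕ), l.foldl (fun (s : U) _ => U.mk (s.val + 1)) ⟨m⟩ =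
        ⟨m + l.length⟩ := by
      intro l
      induction l with
      | nil => intro m; rfl
      | cons b l ih =>
        intro m
        rw [List.foldl_cons, ih, List.length_cons]
        congr 1
        dsimp only
        omega
    simpa using this (f a) 0

end Pool.Agent.PT
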