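import Pool.Agent.Lib_helper88.PolyTime.Arith

/-!
# Polynomial-time functions: the length of the input, polynomials, prefixes, signs
-/

set_option autoImplicit false
set_option linter.dupNamespace false

namespace Pool.Agent.PT

open Function N487b59b3

/-- replace every bit of register `0` by `false`, into register `1` -/
def falsify : Cmd := .loop 0 isne (.seq (.pop 0) (.push 1 false))

theorem falsify_runs (S : Store) :
    Runs falsify S (update (update S 0 []) 1 (List.replicate (S 0).length false ++ S 1))
      (3 * (S 0).length + 1) := by
  generalize hl : S 0 = l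
  induction l generalizing S with
  | nil =>
    refine (Runs.loop_f (by rw [hl]; rfl)).congr ?_ (by omega)
    funext w
    simp only [update_apply]
    split_ifs <;> simp_all
  | cons b l ih =>
    have h1 := Runs.pop 0 S
    have h2 := Runs.push 1 false (update S 0 (S 0).tail)
    have h3 := ih (update (update S 0 (S 0).tail) 1 (false :: update S 0 (S 0).tail 1)) (by
      rw [update_of_ne (by decide), update_self, hl]; rfl)
    refine (Runs.loop_t (by rw [hl]; rfl) (h1.seq h2) h3).congr ?_ (by simp; omega)
    funext w
    simp only [update_apply]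
    split_ifs <;> simp_all [List.replicate_succ']

theorem PT.encLen {α : Type} [N487b59b3 α] : PT (fun a : α => U.mk (enc a).length) := by
  refine ⟨.seq falsify (move 1 0 2), 3 * Polynomial.X + 1 + (8 * Polynomial.X + 2), fun a => ?_⟩
  have h1 := falsify_runs (single 0 (enc a))
  have h2 := move_runs (src := 1) (dst := 0) (tmp := 2) (by decide) (by decide) (by decide)
    (update (update (single 0 (enc a)) 0 []) 1
      (List.replicate (single 0 (enc a) 0).length false ++ single 0 (enc a) 1))
    (by simp [single])
  refine (h1.seq h2).congr ?_ ?_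
  · funext w
    simp only [update_apply, single, enc_U]
    split_ifs <;> simp_all
  · simp [single]

theorem PT.umonomial {α : Type} [N487b59b3 α] {f : α → U} (hf : PT f) (c : ℕ) :
    ∀ n : ℕ, PT (fun a => U.mk (c * (f a).val ^ n))
  | 0 => (PT.const (U.mk c)).congr fun a => by simp
  | n + 1 => ((PT.umonomial hf c n).umul hf).congr fun a => by
      simp [pow_succ, mul_assoc]

/-- polynomials of unary numbers -/
theorem PT.poly {α : Type} [N487b59b3 α] {f : α → U} (hf : PT f) (p : Polynomial ℕ) :
    PT (fun a => U.mk (p.eval (f a).val)) := by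
  induction p using Polynomial.induction_on' with
  | add p q hp hq =>
    refine (hp.uadd hq).congr fun a => ?_
    simp [Polynomial.eval_add]
  | monomial n c =>
    refine (PT.umonomial hf c n).congr fun a => ?_
    simp [Polynomial.eval_monomial]

/-- prefixes -/
theorem PT.take {δ α : Type} [N487b59b3 δ] [N487b59b3 α] [Inhabited α] {f : δ → List α}
    {n : δ → U} (hf : PT f) (hn : PT n) : PT (fun d => (f d).take (n d).val) := by
  have h1 : PT (fun d => (List.replicate (n d).val ()).zip (f d)) :=
    PT.zip hn.toUnits hf
  have h2 : PT (fun d => ((List.replicate (n d).val ()).zip (f d)).map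
      (fun a => (fun p : Bool × (Unit × α) => p.2.2) (true, a))) :=
    PT.map (g := fun p : Bool × (Unit × α) => p.2.2) (e := fun _ => true)
      PT.snd.comp_snd (PT.const true) h1
  refine h2.congr fun d => ?_
  generalize f d = l
  generalize (n d).val = m
  induction l generalizing m with
  | nil => simp
  | cons a l ih =>
    cases m with
    | zero => simp
    | succ m => simp [List.replicate_succ] at ih ⊢; exact ih m

/-! ### signs of rational numbers -/

theorem length_encNat (n : ℕ) : (enc n).length ≤ 0 ↔ n = 0 := by
  constructor
  · intro h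
    have h1 : enc n = enc (0 : ℕ) := by
      rw [List.length_eq_zero_iff.1 (Nat.le_zero.1 h)]
      rfl
    exact bitEncode_injective h1
  · rintro rfl
    exact le_of_eq rfl

theorem PT.natPos {α : Type} [N487b59b3 α] {f : α → ℕ} (hf : PT f) :
    PT (fun a => decide (0 < f a)) := by
  have h1 : PT (fun a => U.mk (enc (f a)).length) := PT.encLen.comp hf
  have h2 := (h1.ule (PT.const (U.mk 0))).not
  refine h2.congr fun a => ?_
  have := length_encNat (f a)
  simp only
  by_cases h : f a = 0
  · have h3 := this.2 h
    have h4 : ¬ (0 < f a) := by omega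
    simp only [h3, h4, decide_true, decide_false, Bool.not_true]
  · have h3 : ¬ ((enc (f a)).length ≤ 0) := fun h' => h (this.1 h')
    have h4 : 0 < f a := Nat.pos_of_ne_zero h
    simp only [h3, h4, decide_true, decide_false, Bool.not_false]

theorem PT.intParts {α : Type} [N487b59b3 α] {f : α → ℤ} (hf : PT f) :
    PT (fun a => ((f a).toNat, (-(f a)).toNat)) :=
  (PT.of_enc_eq (f := fun n : ℤ => (n.toNat, (-n).toNat)) fun _ => rfl).comp hf

theorem PT.ratParts {α : Type} [N487b59b3 α] {f : α → ℚ} (hf : PT f) :
    PT (fun a => ((f a).num, (f a).den)) :=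
  (PT.of_enc_eq (f := fun q : ℚ => (q.num, q.den)) fun _ => rfl).comp hf

/-- the sign of a rational number -/
theorem PT.ratSign {α : Type} [N487b59b3 α] {f : α → ℚ} (hf : PT f) :
    PT (fun a => Int.sign (f a).num) := by
  have h1 := hf.ratParts.comp_fst.intParts
  have hp := h1.comp_fst.natPos
  have hm := h1.comp_snd.natPos
  have h2 := PT.ite hp (PT.const (1 : ℤ)) (PT.ite hm (PT.const (-1 : ℤ)) (PT.const (0 : ℤ)))
  refine h2.congr fun a => ?_
  simp only
  rcases lt_trichotomy (f a).num 0 with h | h | h
  · have e1 : ¬ (0 < (f a).num.toNat) := by omega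
    have e2 : 0 < (-(f a).num).toNat := by omega
    rw [Int.sign_eq_neg_one_of_neg h]
    simp [e1, e2]
  · rw [h]
    simp
  · have e1 : 0 < (f a).num.toNat := by omega
    rw [Int.sign_eq_one_of_pos h]
    simp [e1]

/-- the parity of a unary number -/
theorem PT.uodd {α : Type} [N487b59b3 α] {f : α → U} (hf : PT f) :
    PT (fun a => decide ((f a).val % 2 = 1)) := by
  have h1 := hf.uhalf
  have h2 := h1.uadd h1
  have h3 := hf.ule h2
  refine h3.not.congr fun a => ?_
  simp only
  by_cases h : (f a).val % 2 = 1
  · have : ¬ ((f a).val ≤ (f a).val / 2 + (f a).val / 2) := by omega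
    simp only [h, this, decide_true, decide_false, Bool.not_false]
  · have : ((f a).val ≤ (f a).val / 2 + (f a).val / 2) := by omega
    simp only [h, this, decide_true, decide_false, Bool.not_true]

end Pool.Agent.PT
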