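import Pool.Agent.Lib_helper88.PolyTime.Closure

/-!
# Every polynomial-time `FinTM2` can be simulated by a register program

`PT.of_isPolyTime : IsPolyTime f → PT f`. Consequences: closure of `IsPolyTime` under composition
and countability of the class of polynomial-time functions.
-/

set_option autoImplicit false

namespace Pool.Agent.PT

open Function Turing StateTransition

/-! ### loop-free programs -/

/-- the program has no loops -/
def Cmd.LF : Cmd → Prop
  | .push _ _ => True
  | .pop _ => True
  | .skip => True
  | .seq p q => p.LF ∧ q.LF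
  | .ite _ _ p q => p.LF ∧ q.LF
  | .loop _ _ _ => False

/-- the result of a loop-free program -/
def Cmd.sem : Cmd → Store → Store
  | .push v b, S => update S v (b :: S v)
  | .pop v, S => update S v (S v).tail
  | .skip, S => S
  | .seq p q, S => q.sem (p.sem S)
  | .ite v test p q, S => if test (S v).head? = true then p.sem S else q.sem S
  | .loop _ _ _, S => S

/-- a time bound for a loop-free program -/
def Cmd.cost : Cmd → ℕ
  | .push _ _ => 1
  | .pop _ => 1
  | .skip => 1
  | .seq p q => p.cost + q.cost
  | .ite _ _ p q => 1 + p.cost + q.cost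
  | .loop _ _ _ => 0

theorem Cmd.LF.runs {c : Cmd} (h : c.LF) (S : Store) : Runs c S (c.sem S) c.cost := by
  induction c generalizing S with
  | push v b => exact Runs.push v b S
  | pop v => exact Runs.pop v S
  | skip => exact Runs.skip S
  | seq p q ihp ihq => exact (ihp h.1 S).seq (ihq h.2 _)
  | ite v test p q ihp ihq =>
    by_cases ht : test (S v).head? = true
    · have : (Cmd.ite v test p q).sem S = p.sem S := by simp only [Cmd.sem, if_pos ht]
      rw [this]
      exact (Runs.ite_t ht (ihp h.1 S)).mono (by simp only [Cmd.cost]; omega)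
    · have : (Cmd.ite v test p q).sem S = q.sem S := by simp only [Cmd.sem, if_neg ht]
      rw [this]
      have hf : test (S v).head? = false := by simpa using ht
      exact (Runs.ite_f hf (ihq h.2 S)).mono (by simp only [Cmd.cost]; omega)
  | loop v test p ih => exact absurd h (by simp [Cmd.LF])

/-- read `w` bits from register `r` and continue -/
def readBits (r : ℕ) : ℕ → (List Bool → Cmd) → Cmd
  | 0, k => k []
  | w + 1, k => .ite r ist (.seq (.pop r) (readBits r w fun l => k (true :: l)))
      (.seq (.pop r) (readBits r w fun l => k (false :: l)))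

theorem readBits_LF (r w : ℕ) (k : List Bool → Cmd) (h : ∀ l, (k l).LF) : (readBits r w k).LF := by
  induction w generalizing k with
  | zero => exact h []
  | succ w ih => exact ⟨⟨trivial, ih _ fun l => h _⟩, ⟨trivial, ih _ fun l => h _⟩⟩

theorem readBits_sem (r w : ℕ) (k : List Bool → Cmd) (S : Store) (bits rest : List Bool)
    (hlen : bits.length = w) (hS : S r = bits ++ rest) :
    (readBits r w k).sem S = (k bits).sem (update S r rest) := by
  induction w generalizing k S bits with
  | zero =>
    have hb : bits = [] := List.length_eq_zero_iff.mp hlen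
    subst hb
    have : update S r rest = S := by
      rw [← update_eq_self r S]
      simp only [List.nil_append] at hS
      rw [hS]
      simp
    rw [this]
    rfl
  | succ w ih =>
    cases bits with
    | nil => simp at hlen
    | cons b bits =>
      simp only [List.length_cons, Nat.add_right_cancel_iff] at hlen
      have hS' : S r = b :: (bits ++ rest) := hS
      have key : ∀ (k' : List Bool → Cmd), (readBits r w k').sem (update S r (S r).tail) =
          (k' bits).sem (update S r rest) := by
        intro k'
        rw [ih k' (update S r (S r).tail) bits hlen (by rw [update_self, hS']; rfl), update_idem]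
      cases b with
      | true =>
        have ht : ist (S r).head? = true := by rw [hS']; rfl
        simp only [readBits, Cmd.sem, if_pos ht]
        exact key _
      | false =>
        have ht : ¬ ist (S r).head? = true := by rw [hS']; simp [ist]
        simp only [readBits, Cmd.sem, if_neg ht]
        exact key _

/-- push a list of bits -/
def pushBits (r : ℕ) : List Bool → Cmd
  | [] => .skip
  | b :: l => .seq (pushBits r l) (.push r b)

theorem pushBits_LF (r : ℕ) (l : List Bool) : (pushBits r l).LF := by
  induction l with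
  | nil => trivial
  | cons b l ih => exact ⟨ih, trivial⟩

theorem pushBits_sem (r : ℕ) (l : List Bool) (S : Store) :
    (pushBits r l).sem S = update S r (l ++ S r) := by
  induction l with
  | nil => simp [pushBits, Cmd.sem]
  | cons b l ih => simp [pushBits, Cmd.sem, ih]

/-- dispatch on the unary number in register `c` -/
def dispatch {α : Type} (c : ℕ) (body : α → Cmd) : List α → Cmd
  | [] => .skip
  | q :: qs => .ite c isne (.seq (.pop c) (dispatch c body qs)) (body q)

theorem dispatch_LF {α : Type} (c : ℕ) (body : α → Cmd) (qs : List α) (h : ∀ q, (body q).LF) :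
    (dispatch c body qs).LF := by
  induction qs with
  | nil => trivial
  | cons q qs ih => exact ⟨⟨trivial, ih⟩, h q⟩

theorem dispatch_sem {α : Type} (c : ℕ) (body : α → Cmd) (qs : List α) (i : ℕ)
    (hi : i < qs.length) (T : Store) (hT : T c = List.replicate i true) :
    (dispatch c body qs).sem T = (body qs[i]).sem (update T c []) := by
  induction qs generalizing i T with
  | nil => simp at hi
  | cons q qs ih =>
    cases i with
    | zero =>
      have h0 : T c = [] := by simpa using hT
      have : update T c [] = T := by rw [← h0, update_eq_self]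
      have ht : ¬ isne (T c).head? = true := by rw [h0]; decide
      simp only [dispatch, Cmd.sem, if_neg ht, this, List.getElem_cons_zero]
    | succ i =>
      have ht : isne (T c).head? = true := by rw [hT]; rfl
      have h1 : update T c (T c).tail c = List.replicate i true := by
        rw [update_self, hT]; rfl
      simp only [dispatch, Cmd.sem, if_pos ht, List.getElem_cons_succ]
      rw [ih i (by simpa using hi) _ h1, update_idem]

/-! ### compiling the statements of a TM2 -/

section compile

variable {K : Type} {Γ : K → Type} {Λ σ : Type}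

/-- all symbols that may be pushed by a statement -/
def syms : TM2.Stmt Γ Λ σ → Set (Σ k, Γ k)
  | .push k f q => Set.range (fun s => (⟨k, f s⟩ : Σ k, Γ k)) ∪ syms q
  | .peek _ _ q => syms q
  | .pop _ _ q => syms q
  | .load _ q => syms q
  | .branch _ q₁ q₂ => syms q₁ ∪ syms q₂
  | .goto _ => ∅
  | .halt => ∅

theorem syms_finite [Finite σ] (q : TM2.Stmt Γ Λ σ) : (syms q).Finite := by
  induction q with
  | push k f q ih => exact (Set.finite_range _).union ih
  | peek k f q ih => exact ih
  | pop k f q ih => exact ih
  | load a q ih => exact ih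
  | branch f q₁ q₂ ih₁ ih₂ => exact ih₁.union ih₂
  | goto f => exact Set.finite_empty
  | halt => exact Set.finite_empty

variable (r : K → ℕ) (c w : ℕ) (code : (Σ k, Γ k) → List Bool)
  (dec : (k : K) → List Bool → Option (Γ k)) (idx : Λ × σ → List Bool)

/-- the compiled statement, for a known internal state -/
def compile : TM2.Stmt Γ Λ σ → σ → Cmd
  | .push k f q, s => .seq (pushBits (r k) (code ⟨k, f s⟩)) (compile q s)
  | .peek k f q, s => .ite (r k) isne
      (readBits (r k) w fun l => .seq (pushBits (r k) l) (compile q (f s (dec k l))))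
      (compile q (f s none))
  | .pop k f q, s => .ite (r k) isne
      (readBits (r k) w fun l => compile q (f s (dec k l)))
      (compile q (f s none))
  | .load a q, s => compile q (a s)
  | .branch f q₁ q₂, s => if f s = true then compile q₁ s else compile q₂ s
  | .goto f, s => pushBits c (idx (f s, s))
  | .halt, _ => .skip

theorem compile_LF (q : TM2.Stmt Γ Λ σ) (s : σ) : (compile r c w code dec idx q s).LF := by
  induction q generalizing s with
  | push k f q ih => exact ⟨pushBits_LF _ _, ih _⟩
  | peek k f q ih => exact ⟨readBits_LF _ _ _ fun l => ⟨pushBits_LF _ _, ih _⟩, ih _⟩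
  | pop k f q ih => exact ⟨readBits_LF _ _ _ fun l => ih _, ih _⟩
  | load a q ih => exact ih _
  | branch f q₁ q₂ ih₁ ih₂ =>
    simp only [compile]
    split_ifs
    · exact ih₁ _
    · exact ih₂ _
  | goto f => exact pushBits_LF _ _
  | halt => trivial

/-- the store represents the stacks `S`, with control register content `q` -/
structure Rep (S : ∀ k, List (Γ k)) (q : List Bool) (T : Store) : Prop where
  stk : ∀ k, T (r k) = (S k).flatMap fun a => code ⟨k, a⟩
  ctl : T c = q
  oth : ∀ v, v ≠ c → (∀ k, r k ≠ v) → T v = []

/-- content of the control register -/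
def ctl (l : Option Λ) (s : σ) : List Bool :=
  match l with
  | none => []
  | some l => idx (l, s)

variable {r c w code dec idx}

theorem flatMap_update [DecidableEq K] (hr : Injective r) {S : ∀ k, List (Γ k)} {q : List Bool}
    {T : Store} (hrc : ∀ k, r k ≠ c) (h : Rep r c code S q T) (k : K) (l : List (Γ k)) :
    Rep r c code (update S k l) q (update T (r k) (l.flatMap fun a => code ⟨k, a⟩)) := by
  refine ⟨?_, ?_, ?_⟩
  · intro k'
    by_cases hk : k' = k
    · subst hk
      rw [update_self, update_self]
    · rw [update_of_ne (fun e => hk (hr e)), update_of_ne hk, h.stk]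
  · rw [update_of_ne (hrc k).symm, h.ctl]
  · intro v hv hv'
    rw [update_of_ne (hv' k).symm, h.oth v hv hv']

theorem compile_sem [DecidableEq K] (hr : Injective r) (hrc : ∀ k, r k ≠ c) (hw : 0 < w)
    (hlen : ∀ a, (code a).length = w) {X : Set (Σ k, Γ k)}
    (hdec : ∀ k a, (⟨k, a⟩ : Σ k, Γ k) ∈ X → dec k (code ⟨k, a⟩) = some a)
    (q : TM2.Stmt Γ Λ σ) (hq : syms q ⊆ X) (s : σ) (S : ∀ k, List (Γ k))
    (hS : ∀ k, ∀ a ∈ S k, (⟨k, a⟩ : Σ k, Γ k) ∈ X) (T : Store) (hT : Rep r c code S [] T) :
    Rep r c code (TM2.stepAux q s S).stk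
      (ctl idx (TM2.stepAux q s S).l (TM2.stepAux q s S).var)
      ((compile r c w code dec idx q s).sem T) ∧
    ∀ k, ∀ a ∈ (TM2.stepAux q s S).stk k, (⟨k, a⟩ : Σ k, Γ k) ∈ X := by
  induction q generalizing s S T with
  | push k f q ih =>
    simp only [TM2.stepAux, compile, Cmd.sem, pushBits_sem]
    apply ih (fun x hx => hq (Or.inr hx))
    · intro k' a ha
      by_cases hk : k' = k
      · subst hk
        rw [update_self] at ha
        rcases List.mem_cons.mp ha with h | h
        · subst h
          exact hq (Or.inl ⟨s, rfl⟩)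
        · exact hS _ _ h
      · rw [update_of_ne hk] at ha
        exact hS _ _ ha
    · have := flatMap_update hr hrc hT k (f s :: S k)
      rwa [List.flatMap_cons, ← hT.stk k] at this
  | peek k f q ih =>
    simp only [TM2.stepAux, compile, Cmd.sem]
    rcases hSk : S k with _ | ⟨a, l⟩
    · have h1 : ¬ isne (T (r k)).head? = true := by
        rw [hT.stk k, hSk]; simp [isne]
      rw [if_neg h1]
      exact ih hq _ S hS T hT
    · have hTk : T (r k) = code ⟨k, a⟩ ++ l.flatMap fun a => code ⟨k, a⟩ := by
        rw [hT.stk k, hSk, List.flatMap_cons]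
      have h1 : isne (T (r k)).head? = true := by
        rw [hTk]
        have hl := hlen ⟨k, a⟩
        rcases hc : code ⟨k, a⟩ with _ | ⟨b, m⟩
        · rw [hc] at hl; simp at hl; omega
        · rfl
      rw [if_pos h1, readBits_sem _ _ _ _ _ _ (hlen ⟨k, a⟩) hTk]
      simp only [Cmd.sem, pushBits_sem, update_self, update_idem]
      rw [← hTk, update_eq_self, hdec k a (hS k a (by rw [hSk]; simp))]
      exact ih hq _ S hS T hT
  | pop k f q ih =>
    simp only [TM2.stepAux, compile, Cmd.sem]
    rcases hSk : S k with _ | ⟨a, l⟩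
    · have h1 : ¬ isne (T (r k)).head? = true := by
        rw [hT.stk k, hSk]; simp [isne]
      rw [if_neg h1]
      have h2 : update S k [].tail = S := by
        have : ([] : List (Γ k)).tail = S k := by rw [hSk]; rfl
        rw [this, update_eq_self]
      rw [h2]
      exact ih hq _ S hS T hT
    · have hTk : T (r k) = code ⟨k, a⟩ ++ l.flatMap fun a => code ⟨k, a⟩ := by
        rw [hT.stk k, hSk, List.flatMap_cons]
      have h1 : isne (T (r k)).head? = true := by
        rw [hTk]
        have hl := hlen ⟨k, a⟩
        rcases hc : code ⟨k, a⟩ with _ | ⟨b, m⟩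
        · rw [hc] at hl; simp at hl; omega
        · rfl
      rw [if_pos h1, readBits_sem _ _ _ _ _ _ (hlen ⟨k, a⟩) hTk,
        hdec k a (hS k a (by rw [hSk]; simp))]
      apply ih hq
      · intro k' a' ha
        by_cases hk : k' = k
        · subst hk
          rw [update_self] at ha
          exact hS _ _ (by rw [hSk]; exact List.mem_cons_of_mem _ ha)
        · rw [update_of_ne hk] at ha
          exact hS _ _ ha
      · exact flatMap_update hr hrc hT k l
  | load a q ih =>
    simp only [TM2.stepAux, compile]
    exact ih hq _ S hS T hT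
  | branch f q₁ q₂ ih₁ ih₂ =>
    simp only [TM2.stepAux, compile]
    cases hf : f s with
    | true =>
      simp only [cond_true, if_true]
      exact ih₁ (fun x hx => hq (Or.inl hx)) _ S hS T hT
    | false =>
      simp only [cond_false, Bool.false_eq_true, if_false]
      exact ih₂ (fun x hx => hq (Or.inr hx)) _ S hS T hT
  | goto f =>
    simp only [TM2.stepAux, compile, pushBits_sem, ctl]
    refine ⟨⟨?_, ?_, ?_⟩, hS⟩
    · intro k
      rw [update_of_ne (hrc k), hT.stk]
    · rw [update_self, hT.ctl, List.append_nil]
    · intro v hv hv'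
      rw [update_of_ne hv, hT.oth v hv hv']
  | halt =>
    simp only [TM2.stepAux, compile, Cmd.sem, ctl]
    exact ⟨hT, hS⟩

/-- the simulation loop -/
def simLoop (r : K → ℕ) (c w : ℕ) (code : (Σ k, Γ k) → List Bool)
    (dec : (k : K) → List Bool → Option (Γ k)) (idx : Λ × σ → List Bool)
    (M : Λ → TM2.Stmt Γ Λ σ) (states : List (Λ × σ)) : Cmd :=
  .loop c isne (.seq (.pop c)
    (dispatch c (fun q : Λ × σ => compile r c w code dec idx (M q.1) q.2) states))

theorem simLoop_runs [DecidableEq K] (hr : Injective r) (hrc : ∀ k, r k ≠ c) (hw : 0 < w)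
    (hlen : ∀ a, (code a).length = w) {X : Set (Σ k, Γ k)}
    (hdec : ∀ k a, (⟨k, a⟩ : Σ k, Γ k) ∈ X → dec k (code ⟨k, a⟩) = some a)
    (M : Λ → TM2.Stmt Γ Λ σ) (hM : ∀ l, syms (M l) ⊆ X) (states : List (Λ × σ))
    (hidx : ∀ q, ∃ (i : ℕ) (hi : i < states.length), states[i] = q ∧
      idx q = List.replicate (i + 1) true) :
    ∃ B : ℕ, ∀ (n : ℕ) (a b : TM2.Cfg Γ Λ σ), (flip bind (TM2.step M))^[n] (some a) = some b →
      b.l = none → ∀ T : Store, Rep r c code a.stk (ctl idx a.l a.var) T →
      (∀ k, ∀ x ∈ a.stk k, (⟨k, x⟩ : Σ k, Γ k) ∈ X) →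
      ∃ T' : Store, Runs (simLoop r c w code dec idx M states) T T' (n * B + 1) ∧
        Rep r c code b.stk [] T' ∧ (∀ k, ∀ x ∈ b.stk k, (⟨k, x⟩ : Σ k, Γ k) ∈ X) := by
  set body : Cmd := .seq (.pop c)
    (dispatch c (fun q : Λ × σ => compile r c w code dec idx (M q.1) q.2) states) with hbody
  have hLF : body.LF := ⟨trivial, dispatch_LF _ _ _ fun q => compile_LF _ _ _ _ _ _ _ _⟩
  refine ⟨body.cost + 1, ?_⟩
  intro n
  induction n with
  | zero =>
    intro a b hab hb T hT hX
    have : a = b := by simpa using hab
    subst this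
    have hc : T c = [] := by
      have := hT.ctl
      rw [hb] at this
      exact this
    refine ⟨T, (Runs.loop_f (by rw [hc]; rfl)).mono (by omega), ?_, hX⟩
    rw [hb] at hT
    exact hT
  | succ n ih =>
    intro a b hab hb T hT hX
    rw [Function.iterate_succ_apply] at hab
    obtain ⟨al, av, aS⟩ := a
    cases al with
    | none =>
      exfalso
      have h0 : flip bind (TM2.step M) (some (⟨none, av, aS⟩ : TM2.Cfg Γ Λ σ)) = none := rfl
      rw [h0] at hab
      have h1 : ∀ m : ℕ, (flip bind (TM2.step M))^[m] (none : Option (TM2.Cfg Γ Λ σ)) = none := by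
        intro m
        induction m with
        | zero => rfl
        | succ m ihm => rw [Function.iterate_succ_apply]; exact ihm
      rw [h1] at hab
      exact absurd hab (by simp)
    | some l =>
      have h0 : flip bind (TM2.step M) (some (⟨some l, av, aS⟩ : TM2.Cfg Γ Λ σ)) =
        some (TM2.stepAux (M l) av aS) := rfl
      rw [h0] at hab
      obtain ⟨i, hi, hqi, hix⟩ := hidx (l, av)
      have hTc : T c = List.replicate (i + 1) true := by
        rw [hT.ctl]; exact hix
      have hsem : body.sem T =
          (compile r c w code dec idx (M l) av).sem (update T c []) := by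
        rw [hbody]
        simp only [Cmd.sem]
        rw [dispatch_sem c _ states i hi (update T c (T c).tail)
          (by rw [update_self, hTc]; rfl), update_idem, hqi]
      have hrep : Rep r c code aS [] (update T c []) := by
        refine ⟨?_, update_self _ _ _, ?_⟩
        · intro k
          rw [update_of_ne (hrc k)]
          exact hT.stk k
        · intro v hv hv'
          rw [update_of_ne hv]
          exact hT.oth v hv hv'
      obtain ⟨h2, h3⟩ := compile_sem (idx := idx) hr hrc hw hlen hdec (M l) (hM l) av aS hX
        (update T c []) hrep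
      rw [← hsem] at h2
      obtain ⟨T', hrun, hT', hX'⟩ := ih _ b hab hb (body.sem T) h2 h3
      refine ⟨T', ?_, hT', hX'⟩
      have hstep : Runs body T (body.sem T) body.cost := hLF.runs T
      refine (Runs.loop_t (by rw [hTc]; rfl) hstep hrun).mono ?_
      ring_nf
      omega

end compile

/-! ### input and output conversion -/

/-- replace the bits of `src` by the words `g b`, in reversed order, on top of `dst` -/
def mapRev (src dst : ℕ) (g : Bool → List Bool) : Cmd :=
  .loop src isne (.ite src ist (.seq (.pop src) (pushBits dst (g true)))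
    (.seq (.pop src) (pushBits dst (g false))))

theorem mapRev_runs {src dst : ℕ} (h : src ≠ dst) (g : Bool → List Bool) :
    ∃ B : ℕ, ∀ (l : List Bool) (S : Store), S src = l →
      Runs (mapRev src dst g) S (update (update S src []) dst (l.reverse.flatMap g ++ S dst))
        (l.length * B + 1) := by
  set body : Cmd := .ite src ist (.seq (.pop src) (pushBits dst (g true)))
    (.seq (.pop src) (pushBits dst (g false))) with hbody
  have hLF : body.LF := ⟨⟨trivial, pushBits_LF _ _⟩, ⟨trivial, pushBits_LF _ _⟩⟩
  refine ⟨body.cost + 1, ?_⟩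
  intro l
  induction l with
  | nil =>
    intro S hS
    refine (Runs.loop_f (by rw [hS]; rfl)).congr ?_ (by omega)
    funext v
    simp only [update_apply]
    split_ifs <;> simp_all
  | cons b l ih =>
    intro S hS
    have hsem : body.sem S = update (update S src l) dst (g b ++ S dst) := by
      have h0 : ∀ m : List Bool, (Cmd.seq (.pop src) (pushBits dst m)).sem S =
          update (update S src l) dst (m ++ S dst) := by
        intro m
        simp only [Cmd.sem, pushBits_sem]
        rw [hS, List.tail_cons, update_of_ne h.symm]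
      cases b with
      | true =>
        have ht : ist (S src).head? = true := by rw [hS]; rfl
        show (if ist (S src).head? = true then _ else _) = _
        rw [if_pos ht, h0]
      | false =>
        have ht : ¬ ist (S src).head? = true := by rw [hS]; simp [ist]
        show (if ist (S src).head? = true then _ else _) = _
        rw [if_neg ht, h0]
    have h1 := hLF.runs S
    rw [hsem] at h1
    have h2 := ih (update (update S src l) dst (g b ++ S dst)) (by
      rw [update_of_ne h, update_self])
    refine (Runs.loop_t (by rw [hS]; rfl) h1 h2).congr ?_ ?_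
    · funext v
      simp only [update_apply]
      split_ifs <;> simp_all
    · simp only [List.length_cons]
      ring_nf
      omega

/-- read the symbols of `src` (codes of `w` bits), pushing the corresponding bits on `dst` -/
def outLoop (src dst w : ℕ) (o : List Bool → Bool) : Cmd :=
  .loop src isne (readBits src w fun l => .push dst (o l))

theorem outLoop_runs {src dst w : ℕ} (h : src ≠ dst) (hw : 0 < w) (o : List Bool → Bool)
    (g : Bool → List Bool) (hg : ∀ b, (g b).length = w) :
    ∃ B : ℕ, ∀ (l : List Bool), (∀ b ∈ l, o (g b) = b) → ∀ (S : Store), S src = l.flatMap g →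
      Runs (outLoop src dst w o) S (update (update S src []) dst (l.reverse ++ S dst))
        (l.length * B + 1) := by
  set body : Cmd := readBits src w fun l => .push dst (o l) with hbody
  have hLF : body.LF := readBits_LF _ _ _ fun l => trivial
  refine ⟨body.cost + 1, ?_⟩
  intro l
  induction l with
  | nil =>
    intro _ S hS
    refine (Runs.loop_f (by rw [hS]; rfl)).congr ?_ (by omega)
    funext v
    simp only [update_apply]
    split_ifs <;> simp_all
  | cons b l ih =>
    intro ho S hS
    rw [List.flatMap_cons] at hS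
    have hsem : body.sem S = update (update S src (l.flatMap g)) dst (b :: S dst) := by
      rw [hbody, readBits_sem _ _ _ _ _ _ (hg b) hS]
      simp only [Cmd.sem]
      rw [update_of_ne h.symm, ho b (by simp)]
    have h1 := hLF.runs S
    rw [hsem] at h1
    have h2 := ih (fun b hb => ho b (List.mem_cons_of_mem _ hb))
      (update (update S src (l.flatMap g)) dst (b :: S dst)) (by
      rw [update_of_ne h, update_self])
    have ht : isne (S src).head? = true := by
      rw [hS]
      have hl := hg b
      rcases hc : g b with _ | ⟨b', m⟩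
      · rw [hc] at hl; simp at hl; omega
      · rfl
    refine (Runs.loop_t ht h1 h2).congr ?_ ?_
    · funext v
      simp only [update_apply]
      split_ifs <;> simp_all
    · simp only [List.length_cons]
      ring_nf
      omega

theorem exists_code {T : Type} (X : Set T) (hX : X.Finite) :
    ∃ (w : ℕ) (code : T → List Bool), 0 < w ∧ (∀ a, (code a).length = w) ∧ Set.InjOn code X := by
  classical
  obtain ⟨n, ⟨e⟩⟩ := Finite.exists_equiv_fin (h := hX.to_subtype)
  refine ⟨n + 1, fun a => if h : a ∈ X then List.ofFn fun j : Fin (n + 1) =>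
      decide (j = (e ⟨a, h⟩).castSucc) else List.replicate (n + 1) false, by omega, ?_, ?_⟩
  · intro a
    dsimp only
    split_ifs <;> simp
  · intro a ha b hb hab
    dsimp only at hab
    rw [dif_pos ha, dif_pos hb] at hab
    have h1 := List.ofFn_injective hab
    have h2 := congrFun h1 (e ⟨a, ha⟩).castSucc
    simp only [decide_true] at h2
    have h3 : (e ⟨a, ha⟩).castSucc = (e ⟨b, hb⟩).castSucc := by
      simpa using h2.symm
    have h4 := e.injective (Fin.castSucc_injective _ h3)
    exact congrArg Subtype.val h4

theorem update_single_aux {R : ℕ} (hR : R ≠ 2) (x : List Bool) (gi : Bool → List Bool) :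
    update (update (single 2 x.reverse) 2 []) R
      (x.reverse.reverse.flatMap gi ++ single 2 x.reverse R) = single R (x.flatMap gi) := by
  funext v
  simp only [update_apply, single]
  split_ifs <;> simp_all

theorem initList_stk_self (tm : FinTM2) (s : List (tm.Γ tm.k₀)) :
    (initList tm s).stk tm.k₀ = s := by
  simp [initList]

theorem initList_stk_ne (tm : FinTM2) (s : List (tm.Γ tm.k₀)) {k : tm.K} (h : k ≠ tm.k₀) :
    (initList tm s).stk k = [] := by
  simp [initList, h]

theorem haltList_stk_self (tm : FinTM2) (s : List (tm.Γ tm.k₁)) :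
    (haltList tm s).stk tm.k₁ = s := by
  simp [haltList]

theorem haltList_stk_ne (tm : FinTM2) (s : List (tm.Γ tm.k₁)) {k : tm.K} (h : k ≠ tm.k₁) :
    (haltList tm s).stk k = [] := by
  simp [haltList, h]

theorem update_single_aux1 (x : List Bool) :
    update (update (single 0 x) 0 []) 2 ((single 0 x 0).reverse ++ single 0 x 2) =
      single 2 x.reverse := by
  funext v
  simp only [update_apply, single]
  split_ifs <;> simp_all

theorem update_single_aux2 (y : List Bool) :
    update (update (single 2 y.reverse) 2 []) 0
      ((single 2 y.reverse 2).reverse ++ single 2 y.reverse 0) = single 0 y := by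
  funext v
  simp only [update_apply, single]
  split_ifs <;> simp_all

theorem time_aux (x y n B1 B2 B3 C m w : ℕ) (hm : m ≤ n) (hy : y ≤ w * x + (m * B1 + 1)) :
    4 * x + 1 + (x * B2 + 1 + (C + (m * B1 + 1 + (y * B3 + 1 + (4 * y + 1))))) ≤
      (9 + B2 + C + B1 + (B3 + 4) * (w + B1 + 1)) * (x + n + 1) := by
  have h1 : m * B1 ≤ n * B1 := Nat.mul_le_mul_right _ hm
  have hy' : y ≤ w * x + (n * B1 + 1) := by omega
  have h3 : y ≤ (w + B1 + 1) * (x + n + 1) := by
    refine hy'.trans ?_
    nlinarith [Nat.zero_le (w * n), Nat.zero_le (B1 * x), Nat.zero_le x, Nat.zero_le n,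
      Nat.zero_le w, Nat.zero_le B1]
  have h4 : (B3 + 4) * y ≤ (B3 + 4) * ((w + B1 + 1) * (x + n + 1)) := Nat.mul_le_mul_left _ h3
  have h5 : 4 * x + 1 + (x * B2 + 1 + (C + (n * B1 + 1 + (1 + 1)))) ≤
      (9 + B2 + C + B1) * (x + n + 1) := by
    nlinarith [Nat.zero_le (x * B1), Nat.zero_le (n * B2), Nat.zero_le (n * C),
      Nat.zero_le (x * C), Nat.zero_le n, Nat.zero_le x, Nat.zero_le B1, Nat.zero_le B2,
      Nat.zero_le C]
  calc 4 * x + 1 + (x * B2 + 1 + (C + (m * B1 + 1 + (y * B3 + 1 + (4 * y + 1)))))
      = 4 * x + 1 + (x * B2 + 1 + (C + (m * B1 + 1 + (1 + 1)))) + (B3 + 4) * y := by ring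
    _ ≤ (9 + B2 + C + B1) * (x + n + 1) + (B3 + 4) * ((w + B1 + 1) * (x + n + 1)) := by omega
    _ = _ := by ring

theorem length_flatMap_const {α : Type} (g : α → List Bool) (w : ℕ) (hg : ∀ b, (g b).length = w)
    (l : List α) : (l.flatMap g).length = w * l.length := by
  induction l with
  | nil => simp
  | cons b l ih => rw [List.flatMap_cons, List.length_append, ih, hg, List.length_cons]; ring

/-- the simulation of a `FinTM2` whose input and output alphabets are identified with `Bool` -/
theorem exists_sim (tm : FinTM2) (ei : tm.Γ tm.k₀ ≃ Bool) (eo : tm.Γ tm.k₁ ≃ Bool) :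
    ∃ (p : Cmd) (B : ℕ), ∀ (x y : List Bool) (n : ℕ),
      TM2OutputsInTime tm (x.map ei.invFun) (some (y.map eo.invFun)) n →
      Runs p (single 0 x) (single 0 y) (B * (x.length + n + 1)) := by
  classical
  let _ := tm.kFin
  let _ := tm.ΛFin
  let _ := tm.σFin
  let _ := tm.Γk₀Fin
  -- the alphabet
  set X : Set (Σ k, tm.Γ k) := (⋃ l, syms (tm.m l)) ∪ Set.range (fun a => ⟨tm.k₀, a⟩) with hXdef
  have hXfin : X.Finite :=
    (Set.finite_iUnion fun l => syms_finite (tm.m l)).union (Set.finite_range _)
  obtain ⟨w, code, hw, hlen, hinj⟩ := exists_code X hXfin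
  set dec : (k : tm.K) → List Bool → Option (tm.Γ k) := fun k l =>
    if h : ∃ a : tm.Γ k, (⟨k, a⟩ : Σ k, tm.Γ k) ∈ X ∧ code ⟨k, a⟩ = l then some h.choose
    else none with hdecdef
  have hdec : ∀ k a, (⟨k, a⟩ : Σ k, tm.Γ k) ∈ X → dec k (code ⟨k, a⟩) = some a := by
    intro k a ha
    have h : ∃ a' : tm.Γ k, (⟨k, a'⟩ : Σ k, tm.Γ k) ∈ X ∧ code ⟨k, a'⟩ = code ⟨k, a⟩ := ⟨a, ha, rfl⟩
    rw [hdecdef]
    dsimp only
    rw [dif_pos h]
    have h1 := hinj h.choose_spec.1 ha h.choose_spec.2
    have h2 : h.choose = a := by simpa using h1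
    rw [h2]
  -- registers
  set r : tm.K → ℕ := fun k => 3 + (Fintype.equivFin tm.K k : ℕ) with hrdef
  have hr : Injective r := by
    intro a b hab
    have : (Fintype.equivFin tm.K a : ℕ) = Fintype.equivFin tm.K b := by
      simp only [hrdef] at hab; omega
    exact (Fintype.equivFin tm.K).injective (Fin.ext this)
  have hr0 : ∀ k, r k ≠ 0 := fun k => by simp only [hrdef]; omega
  have hr1 : ∀ k, r k ≠ 1 := fun k => by simp only [hrdef]; omega
  have hr2 : ∀ k, r k ≠ 2 := fun k => by simp only [hrdef]; omega
  -- states
  set states : List (tm.Λ × tm.σ) := Finset.univ.toList with hstates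
  set idx : tm.Λ × tm.σ → List Bool := fun q => List.replicate (states.idxOf q + 1) true with hidxdef
  have hidx : ∀ q, ∃ (i : ℕ) (hi : i < states.length), states[i] = q ∧
      idx q = List.replicate (i + 1) true := by
    intro q
    have hmem : q ∈ states := by rw [hstates]; simp
    exact ⟨states.idxOf q, List.idxOf_lt_length_of_mem hmem, List.getElem_idxOf _, rfl⟩
  obtain ⟨B1, hB1⟩ := simLoop_runs (c := 1) (idx := idx) hr hr1 hw hlen hdec tm.m
    (fun l => (Set.subset_iUnion (fun l => syms (tm.m l)) l).trans Set.subset_union_left)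
    states hidx
  set gi : Bool → List Bool := fun b => code ⟨tm.k₀, ei.symm b⟩ with hgi
  set go : Bool → List Bool := fun b => code ⟨tm.k₁, eo.symm b⟩ with hgo
  set o : List Bool → Bool := fun l => ((dec tm.k₁ l).map eo).getD false with ho
  obtain ⟨B2, hB2⟩ := mapRev_runs (src := 2) (dst := r tm.k₀) (hr2 _).symm gi
  obtain ⟨B3, hB3⟩ := outLoop_runs (src := r tm.k₁) (dst := 2) (hr2 _) hw o go (fun b => hlen _)
  refine ⟨.seq (moveRev 0 2) (.seq (mapRev 2 (r tm.k₀) gi) (.seq
    (pushBits 1 (idx (tm.main, tm.initialState))) (.seq (simLoop r 1 w code dec idx tm.m states)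
    (.seq (outLoop (r tm.k₁) 2 w o) (moveRev 2 0))))),
    9 + B2 + (pushBits 1 (idx (tm.main, tm.initialState))).cost + B1 +
      (B3 + 4) * (w + B1 + 1), ?_⟩
  intro x y n hn
  -- input
  have e1 := moveRev_runs (src := 0) (dst := 2) (by decide) (single 0 x)
  have e1s : update (update (single 0 x) 0 []) 2 ((single 0 x 0).reverse ++ single 0 x 2) =
      single 2 x.reverse := update_single_aux1 x
  rw [e1s] at e1
  have e2 := hB2 x.reverse (single 2 x.reverse) (by simp [single])
  have e2s : update (update (single 2 x.reverse) 2 []) (r tm.k₀)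
      (x.reverse.reverse.flatMap gi ++ single 2 x.reverse (r tm.k₀)) =
      single (r tm.k₀) (x.flatMap gi) := by
    exact update_single_aux (hr2 _) _ _
  rw [e2s] at e2
  have e3 := (pushBits_LF 1 (idx (tm.main, tm.initialState))).runs (single (r tm.k₀) (x.flatMap gi))
  rw [pushBits_sem] at e3
  set T0 := update (single (r tm.k₀) (x.flatMap gi)) 1
    (idx (tm.main, tm.initialState) ++ single (r tm.k₀) (x.flatMap gi) 1) with hT0
  -- simulation
  have hinit : Rep r 1 code (initList tm (x.map ei.invFun)).stk
      (ctl idx (initList tm (x.map ei.invFun)).l (initList tm (x.map ei.invFun)).var) T0 := by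
    refine ⟨?_, ?_, ?_⟩
    · intro k
      rw [hT0, update_of_ne (hr1 k)]
      by_cases hk : k = tm.k₀
      · subst hk
        rw [initList_stk_self, List.flatMap_map]
        simp only [single, if_true]
        rfl
      · rw [initList_stk_ne tm _ hk]
        simp only [single]
        rw [if_neg (fun h => hk (hr h))]
        rfl
    · rw [hT0, update_self]
      simp only [single, initList, ctl]
      rw [if_neg (hr1 _).symm, List.append_nil]
    · intro v hv hv'
      rw [hT0, update_of_ne hv]
      simp only [single]
      rw [if_neg (hv' _).symm]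
  have hXinit : ∀ k, ∀ a ∈ (initList tm (x.map ei.invFun)).stk k,
      (⟨k, a⟩ : Σ k, tm.Γ k) ∈ X := by
    intro k a ha
    by_cases hk : k = tm.k₀
    · subst hk
      exact Or.inr ⟨a, rfl⟩
    · rw [initList_stk_ne tm _ hk] at ha
      simp at ha
  obtain ⟨T', e4, hT', hX'⟩ := hB1 hn.steps _ _ hn.evals_in_steps rfl T0 hinit hXinit
  -- output
  have hstk1 : (haltList tm (y.map eo.invFun)).stk tm.k₁ = y.map eo.invFun :=
    haltList_stk_self tm _
  have hT1 : T' (r tm.k₁) = y.flatMap go := by
    rw [hT'.stk tm.k₁, hstk1, List.flatMap_map]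
    rfl
  have hoy : ∀ b ∈ y, o (go b) = b := by
    intro b hb
    have hmem : (⟨tm.k₁, eo.symm b⟩ : Σ k, tm.Γ k) ∈ X := by
      apply hX' tm.k₁
      rw [hstk1]
      exact List.mem_map.mpr ⟨b, hb, rfl⟩
    simp only [ho, hgo]
    rw [hdec _ _ hmem]
    simp
  have e5 := hB3 y hoy T' hT1
  have hT'2 : T' 2 = [] := hT'.oth 2 (by decide) hr2
  have e5s : update (update T' (r tm.k₁) []) 2 (y.reverse ++ T' 2) = single 2 y.reverse := by
    funext v
    by_cases hv2 : v = 2
    · subst hv2
      rw [update_self, hT'2]
      simp [single]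
    · rw [update_of_ne hv2]
      simp only [single]
      rw [if_neg hv2]
      by_cases hv1 : v = r tm.k₁
      · rw [hv1, update_self]
      · rw [update_of_ne hv1]
        by_cases hc : v = 1
        · rw [hc]; exact hT'.ctl
        · by_cases hk : ∃ k, r k = v
          · obtain ⟨k, hk⟩ := hk
            rw [← hk, hT'.stk k]
            have hkk : k ≠ tm.k₁ := fun h => hv1 (by rw [← hk, h])
            change (List.flatMap _ ((haltList tm (y.map eo.invFun)).stk k)) = _
            rw [haltList_stk_ne tm _ hkk]
            rfl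
          · exact hT'.oth v hc (fun k hk' => hk ⟨k, hk'⟩)
  rw [e5s] at e5
  have e6 := moveRev_runs (src := 2) (dst := 0) (by decide) (single 2 y.reverse)
  rw [update_single_aux2] at e6
  refine (e1.seq (e2.seq (e3.seq (e4.seq (e5.seq e6))))).mono ?_
  have hl1 : (single 0 x 0).length = x.length := rfl
  have hl2 : (single 2 y.reverse 2).length = y.length := by
    simp [single]
  rw [hl1, hl2, List.length_reverse]
  have hy : y.length ≤ w * x.length + (hn.steps * B1 + 1) := by
    have h1 := e4.length_le (r tm.k₁)
    rw [hT1, length_flatMap_const go w (fun b => hlen _)] at h1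
    have h2 : (T0 (r tm.k₁)).length ≤ w * x.length := by
      rw [hT0, update_of_ne (hr1 _)]
      simp only [single]
      split_ifs
      · rw [length_flatMap_const gi w (fun b => hlen _)]
      · simp
    have h3 : 1 * y.length ≤ w * y.length := Nat.mul_le_mul_right _ hw
    omega
  exact time_aux _ _ _ _ _ _ _ _ _ hn.steps_le_m hy

theorem PT.of_isPolyTime {α β : Type} [N487b59b3 α] [N487b59b3 β] {f : α → β}
    (h : N68a2faeb.IsPolyTime f) : PT f := by
  obtain ⟨M⟩ := h
  obtain ⟨p, B, hpB⟩ := exists_sim M.tm M.inputAlphabet M.outputAlphabet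
  refine ⟨p, Polynomial.C B * (Polynomial.X + M.time + 1), fun a => ?_⟩
  refine (hpB (enc a) (enc (f a)) _ (M.outputsFun a)).mono ?_
  simp only [Polynomial.eval_mul, Polynomial.eval_C, Polynomial.eval_add, Polynomial.eval_X,
    Polynomial.eval_one]
  exact le_rfl

theorem isPolyTime_iff_PT {α β : Type} [N487b59b3 α] [N487b59b3 β] {f : α → β} :
    N68a2faeb.IsPolyTime f ↔ PT f := ⟨PT.of_isPolyTime, PT.isPolyTime⟩

/-- composition of polynomial-time functions -/
theorem isPolyTime_comp {α β γ : Type} [N487b59b3 α] [N487b59b3 β] [N487b59b3 γ] {g : β → γ}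
    {f : α → β} (hg : N68a2faeb.IsPolyTime g) (hf : N68a2faeb.IsPolyTime f) :
    N68a2faeb.IsPolyTime (fun a => g (f a)) :=
  (PT.comp (PT.of_isPolyTime hg) (PT.of_isPolyTime hf)).isPolyTime

/-! ### countability -/

theorem Exec.det {c : Cmd} {S S' : Store} {t : ℕ} (h : Exec c S S' t) :
    ∀ {S'' : Store} {t' : ℕ}, Exec c S S'' t' → S' = S'' ∧ t = t' := by
  induction h with
  | push v b S => intro S'' t' h'; cases h'; exact ⟨rfl, rfl⟩
  | pop v S => intro S'' t' h'; cases h'; exact ⟨rfl, rfl⟩
  | skip S => intro S'' t' h'; cases h'; exact ⟨rfl, rfl⟩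
  | seq _ _ ih1 ih2 =>
    intro S'' t' h'
    cases h' with
    | seq a b =>
      obtain ⟨e1, e2⟩ := ih1 a
      subst e1 e2
      obtain ⟨e3, e4⟩ := ih2 b
      exact ⟨e3, by rw [e4]⟩
  | ite_t ht _ ih =>
    intro S'' t' h'
    cases h' with
    | ite_t _ a => obtain ⟨e1, e2⟩ := ih a; exact ⟨e1, by rw [e2]⟩
    | ite_f hf _ => rw [ht] at hf; exact absurd hf (by simp)
  | ite_f hf _ ih =>
    intro S'' t' h'
    cases h' with
    | ite_t ht _ => rw [hf] at ht; exact absurd ht (by simp)
    | ite_f _ a => obtain ⟨e1, e2⟩ := ih a; exact ⟨e1, by rw [e2]⟩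
  | loop_f hf =>
    intro S'' t' h'
    cases h' with
    | loop_f _ => exact ⟨rfl, rfl⟩
    | loop_t ht _ _ => rw [hf] at ht; exact absurd ht (by simp)
  | loop_t ht _ _ ih1 ih2 =>
    intro S'' t' h'
    cases h' with
    | loop_f hf => rw [hf] at ht; exact absurd ht (by simp)
    | loop_t _ a b =>
      obtain ⟨e1, e2⟩ := ih1 a
      subst e1 e2
      obtain ⟨e3, e4⟩ := ih2 b
      exact ⟨e3, by rw [e4]⟩

/-- shapes of nodes of programs -/
abbrev Shape : Type := ℕ × ℕ × Bool × (Option Bool → Bool)

/-- prefix code of a program -/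
def Cmd.pre : Cmd → List Shape
  | .push v b => [(0, v, b, fun _ => false)]
  | .pop v => [(1, v, false, fun _ => false)]
  | .skip => [(2, 0, false, fun _ => false)]
  | .seq p q => (3, 0, false, fun _ => false) :: (p.pre ++ q.pre)
  | .ite v t p q => (4, v, false, t) :: (p.pre ++ q.pre)
  | .loop v t p => (5, v, false, t) :: p.pre

theorem Cmd.pre_inj (c : Cmd) : ∀ (d : Cmd) (l m : List Shape), c.pre ++ l = d.pre ++ m →
    c = d ∧ l = m := by
  induction c with
  | push v b =>
    intro d l m h
    cases d <;> simp [Cmd.pre] at h <;> simp_all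
  | pop v =>
    intro d l m h
    cases d <;> simp [Cmd.pre] at h <;> simp_all
  | skip =>
    intro d l m h
    cases d <;> simp [Cmd.pre] at h <;> simp_all
  | seq p q ihp ihq =>
    intro d l m h
    cases d with
    | seq p' q' =>
      simp only [Cmd.pre, List.cons_append, List.cons.injEq, true_and, List.append_assoc] at h
      obtain ⟨e1, e2⟩ := ihp _ _ _ h
      obtain ⟨e3, e4⟩ := ihq _ _ _ e2
      exact ⟨by rw [e1, e3], e4⟩
    | push v b => simp [Cmd.pre] at h
    | pop v => simp [Cmd.pre] at h
    | skip => simp [Cmd.pre] at h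
    | ite v t p' q' => simp [Cmd.pre] at h
    | loop v t p' => simp [Cmd.pre] at h
  | ite v t p q ihp ihq =>
    intro d l m h
    cases d with
    | ite v' t' p' q' =>
      simp only [Cmd.pre, List.cons_append, List.cons.injEq, Prod.mk.injEq, true_and,
        List.append_assoc] at h
      obtain ⟨⟨h1, h2⟩, h3⟩ := h
      obtain ⟨e1, e2⟩ := ihp _ _ _ h3
      obtain ⟨e3, e4⟩ := ihq _ _ _ e2
      exact ⟨by rw [e1, e3, h1, h2], e4⟩
    | push v b => simp [Cmd.pre] at h
    | pop v => simp [Cmd.pre] at h
    | skip => simp [Cmd.pre] at h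
    | seq p' q' => simp [Cmd.pre] at h
    | loop v t p' => simp [Cmd.pre] at h
  | loop v t p ih =>
    intro d l m h
    cases d with
    | loop v' t' p' =>
      simp only [Cmd.pre, List.cons_append, List.cons.injEq, Prod.mk.injEq, true_and] at h
      obtain ⟨⟨h1, h2⟩, h3⟩ := h
      obtain ⟨e1, e2⟩ := ih _ _ _ h3
      exact ⟨by rw [e1, h1, h2], e2⟩
    | push v b => simp [Cmd.pre] at h
    | pop v => simp [Cmd.pre] at h
    | skip => simp [Cmd.pre] at h
    | seq p' q' => simp [Cmd.pre] at h
    | ite v t p' q' => simp [Cmd.pre] at h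

theorem Cmd.pre_injective : Injective Cmd.pre := by
  intro c d h
  exact (Cmd.pre_inj c d [] [] (by simpa using h)).1

instance : Countable Cmd := Cmd.pre_injective.countable

/-- a register program computes at most one function -/
theorem runs_unique {c : Cmd} {α β : Type} [N487b59b3 α] [N487b59b3 β] {f g : α → β}
    {p q : α → ℕ} (hf : ∀ a, Runs c (single 0 (enc a)) (single 0 (enc (f a))) (p a))
    (hg : ∀ a, Runs c (single 0 (enc a)) (single 0 (enc (g a))) (q a)) : f = g := by
  funext a
  obtain ⟨t, _, h1⟩ := hf a
  obtain ⟨t', _, h2⟩ := hg a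
  have h3 := congrFun (h1.det h2).1 0
  simp only [single, if_true] at h3
  exact N487b59b3.bitEncode_injective h3

/-- there are only countably many polynomial-time functions -/
theorem countable_PT (α β : Type) [N487b59b3 α] [N487b59b3 β] :
    {f : α → β | PT f}.Countable := by
  have h : ∀ f : {f : α → β | PT f}, ∃ (c : Cmd) (p : Polynomial ℕ), ∀ a : α,
    Runs c (single 0 (enc a)) (single 0 (enc (f.1 a))) (p.eval (enc a).length) := fun f => f.2
  choose c p hcp using h
  have hinj : Injective c := by
    intro f g hfg
    apply Subtype.ext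
    exact runs_unique (hcp f) (by rw [hfg]; exact hcp g)
  exact Set.countable_coe_iff.mp hinj.countable

theorem countable_isPolyTime (α β : Type) [N487b59b3 α] [N487b59b3 β] :
    {f : α → β | N68a2faeb.IsPolyTime f}.Countable := by
  have : {f : α → β | N68a2faeb.IsPolyTime f} = {f : α → β | PT f} := by
    ext f
    exact isPolyTime_iff_PT
  rw [this]
  exact countable_PT α β

end Pool.Agent.PT
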