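import Pool.Agent.Lib_helper88.PolyTime.Macros

/-!
# Polynomial-time functions between encoded types: closure properties

`PT f` says that some register program transforms the encoding of `a` (in register `0`, all other
registers empty) into the encoding of `f a` in a number of steps polynomial in the length of the
encoding of `a`. `PT.isPolyTime` turns this into the predicate `N68a2faeb.IsPolyTime` of the
Prelude, i.e. Mathlib's `TM2ComputableInPolyTime`.
-/

set_option autoImplicit false
set_option linter.dupNamespace false

namespace Pool.Agent.PT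

open Function Turing N487b59b3

/-- the encoding as a bit string -/
abbrev enc {α : Type} [N487b59b3 α] (a : α) : List Bool := N487b59b3.bitEncode a

/-- polynomial-time computable functions, by register programs -/
def PT {α β : Type} [N487b59b3 α] [N487b59b3 β] (f : α → β) : Prop :=
  ∃ (c : Cmd) (p : Polynomial ℕ), ∀ a : α,
    Runs c (single 0 (enc a)) (single 0 (enc (f a))) (p.eval (enc a).length)

theorem poly_mono (p : Polynomial ℕ) {a b : ℕ} (h : a ≤ b) : p.eval a ≤ p.eval b := by
  rw [Polynomial.eval_eq_sum_range, Polynomial.eval_eq_sum_range]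
  apply Finset.sum_le_sum
  intro i _
  exact Nat.mul_le_mul_left _ (Nat.pow_le_pow_left h i)

theorem PT.isPolyTime {α β : Type} [N487b59b3 α] [N487b59b3 β] {f : α → β} (h : PT f) :
    N68a2faeb.IsPolyTime f := by
  obtain ⟨c, p, hcp⟩ := h
  obtain ⟨N, hN⟩ := c.exists_regs
  have key : ∀ a : α, Nonempty (TM2OutputsInTime (machine c N) (enc a) (some (enc (f a)))
      ((p + 1).eval (enc a).length)) := by
    intro a
    obtain ⟨t, ht, he⟩ := hcp a
    obtain ⟨h1⟩ := machine_outputs hN he
    refine ⟨⟨h1.toEvalsTo, le_trans h1.steps_le_m ?_⟩⟩
    rw [Polynomial.eval_add, Polynomial.eval_one]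
    omega
  refine ⟨{ tm := machine c N
            inputAlphabet := Equiv.refl Bool
            outputAlphabet := Equiv.refl Bool
            time := p + 1
            outputsFun := ?_ }⟩
  intro a
  have e1 : List.map (Equiv.refl Bool).invFun (enc a) = enc a := by
    simp [Equiv.refl]
  have e2 : List.map (Equiv.refl Bool).invFun (enc (f a)) = enc (f a) := by
    simp [Equiv.refl]
  have h2 := (key a).some
  refine cast ?_ h2
  show TM2OutputsInTime (machine c N) (enc a) (some (enc (f a))) ((p + 1).eval (enc a).length) =
    TM2OutputsInTime (machine c N) (List.map (Equiv.refl Bool).invFun (enc a))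
      (some (List.map (Equiv.refl Bool).invFun (enc (f a)))) ((p + 1).eval (enc a).length)
  exact congrArg₂ (fun x y => TM2OutputsInTime (machine c N) x (some y)
    ((p + 1).eval (enc a).length)) e1.symm e2.symm

/-- functions that do not change the encoding -/
theorem PT.of_enc_eq {α β : Type} [N487b59b3 α] [N487b59b3 β] {f : α → β}
    (h : ∀ a, enc (f a) = enc a) : PT f :=
  ⟨.skip, 1, fun a => by rw [h, Polynomial.eval_one]; exact Runs.skip _⟩

theorem PT.id {α : Type} [N487b59b3 α] : PT (fun a : α => a) := PT.of_enc_eq fun _ => rfl

theorem PT.comp {α β γ : Type} [N487b59b3 α] [N487b59b3 β] [N487b59b3 γ] {g : β → γ} {f : α → β}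
    (hg : PT g) (hf : PT f) : PT (fun a => g (f a)) := by
  obtain ⟨c, p, hc⟩ := hf
  obtain ⟨d, q, hd⟩ := hg
  refine ⟨.seq c d, p + q.comp (Polynomial.X + p), fun a => ?_⟩
  refine ((hc a).seq (hd (f a))).mono ?_
  have hlen := (hc a).length_le 0
  simp only [single, if_true] at hlen
  rw [Polynomial.eval_add, Polynomial.eval_comp, Polynomial.eval_add, Polynomial.eval_X]
  have := poly_mono q hlen
  omega

/-- the pairs `true, b` for the bits `b` of the list -/
def dl : List Bool → List Bool
  | [] => []
  | b :: l => true :: b :: dl l

theorem dl_append (l m : List Bool) : dl (l ++ m) = dl l ++ dl m := by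
  induction l with
  | nil => rfl
  | cons b l ih => simp [dl, ih]

theorem length_dl (l : List Bool) : (dl l).length = 2 * l.length := by
  induction l with
  | nil => rfl
  | cons b l ih => simp [dl, ih]; omega

theorem delimit_eq (l : List Bool) : delimit l = dl l ++ [false] := by
  induction l with
  | nil => rfl
  | cons b l ih => simp [dl, delimit, ih]

/-- move `src` reversed and delimited on top of `dst` -/
def moveDl (src dst : ℕ) : Cmd :=
  .loop src isne (.seq (pushHead src dst) (.seq (.push dst true) (.pop src)))

theorem moveDl_runs {src dst : ℕ} (h : src ≠ dst) (S : Store) :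
    Runs (moveDl src dst) S (update (update S src []) dst (dl (S src).reverse ++ S dst))
      (5 * (S src).length + 1) := by
  generalize hl : S src = l
  induction l generalizing S with
  | nil =>
    refine (Runs.loop_f (by rw [hl]; rfl)).congr ?_ (by omega)
    funext w
    simp only [update_apply]
    split_ifs <;> simp_all [dl]
  | cons b l ih =>
    have h1 := pushHead_runs src dst S hl
    have h2 := Runs.push dst true (update S dst (b :: S dst))
    rw [update_self, update_idem] at h2
    have h3 := Runs.pop src (update S dst (true :: b :: S dst))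
    rw [update_of_ne h, hl, List.tail_cons] at h3
    have h4 := ih (update (update S dst (true :: b :: S dst)) src l) (by rw [update_self])
    refine (Runs.loop_t (by rw [hl]; rfl) (h1.seq (h2.seq h3)) h4).congr ?_ (by simp; omega)
    funext w
    simp only [update_apply]
    split_ifs <;> simp_all [dl, dl_append]

/-- move `src` reversed and delimited on top of `d1`, and reversed on top of `d2` -/
def moveDl2 (src d1 d2 : ℕ) : Cmd :=
  .loop src isne (.seq (pushHead src d2) (.seq (pushHead src d1) (.seq (.push d1 true) (.pop src))))

theorem moveDl2_runs {src d1 d2 : ℕ} (h1 : src ≠ d1) (h2 : src ≠ d2) (h12 : d1 ≠ d2) (S : Store) :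
    Runs (moveDl2 src d1 d2) S (update (update (update S src []) d1 (dl (S src).reverse ++ S d1)) d2
      ((S src).reverse ++ S d2)) (7 * (S src).length + 1) := by
  generalize hl : S src = l
  induction l generalizing S with
  | nil =>
    refine (Runs.loop_f (by rw [hl]; rfl)).congr ?_ (by omega)
    funext w
    simp only [update_apply]
    split_ifs <;> simp_all [dl]
  | cons b l ih =>
    have e0 := pushHead_runs src d2 S hl
    have e1 := pushHead_runs src d1 (update S d2 (b :: S d2)) (b := b) (l := l)
      (by rw [update_of_ne h2, hl])
    rw [update_of_ne h12] at e1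
    have e2 := Runs.push d1 true (update (update S d2 (b :: S d2)) d1 (b :: S d1))
    rw [update_self, update_idem] at e2
    have e3 := Runs.pop src (update (update S d2 (b :: S d2)) d1 (true :: b :: S d1))
    rw [update_of_ne h1, update_of_ne h2, hl, List.tail_cons] at e3
    have e4 := ih (update (update (update S d2 (b :: S d2)) d1 (true :: b :: S d1)) src l)
      (by rw [update_self])
    refine (Runs.loop_t (by rw [hl]; rfl) (e0.seq (e1.seq (e2.seq e3))) e4).congr ?_
      (by simp; omega)
    funext w
    simp only [update_apply]
    split_ifs <;> simp_all [dl, dl_append]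

/-- parse a delimited block from `src`, putting it reversed on top of `dst` -/
def undelim (src dst : ℕ) : Cmd :=
  .seq (.loop src ist (.seq (.pop src) (.seq (pushHead src dst) (.pop src)))) (.pop src)

theorem undelim_loop_runs {src dst : ℕ} (h : src ≠ dst) (l rest : List Bool) (S : Store)
    (hS : S src = delimit l ++ rest) :
    Runs (.loop src ist (.seq (.pop src) (.seq (pushHead src dst) (.pop src)))) S
      (update (update S src (false :: rest)) dst (l.reverse ++ S dst)) (5 * l.length + 1) := by
  induction l generalizing S with
  | nil =>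
    refine (Runs.loop_f (by rw [hS]; rfl)).congr ?_ (by omega)
    funext w
    simp only [update_apply]
    split_ifs <;> simp_all [delimit]
  | cons b l ih =>
    have hS' : S src = true :: b :: (delimit l ++ rest) := hS
    have h1 := Runs.pop src S
    rw [hS', List.tail_cons] at h1
    have h2 := pushHead_runs src dst (update S src (b :: (delimit l ++ rest))) (b := b)
      (l := delimit l ++ rest) (by rw [update_self])
    rw [update_of_ne h.symm] at h2
    have h3 := Runs.pop src (update (update S src (b :: (delimit l ++ rest))) dst (b :: S dst))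
    rw [update_of_ne h, update_self, List.tail_cons] at h3
    have h4 := ih (update (update (update S src (b :: (delimit l ++ rest))) dst (b :: S dst)) src
      (delimit l ++ rest)) (by rw [update_self])
    refine (Runs.loop_t (by rw [hS']; rfl) (h1.seq (h2.seq h3)) h4).congr ?_ (by simp; omega)
    funext w
    simp only [update_apply]
    split_ifs <;> simp_all

theorem undelim_runs {src dst : ℕ} (h : src ≠ dst) (l rest : List Bool) (S : Store)
    (hS : S src = delimit l ++ rest) :
    Runs (undelim src dst) S
      (update (update S src rest) dst (l.reverse ++ S dst)) (5 * l.length + 2) := by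
  have h1 := undelim_loop_runs h l rest S hS
  have h2 := Runs.pop src (update (update S src (false :: rest)) dst (l.reverse ++ S dst))
  rw [update_of_ne h, update_self, List.tail_cons] at h2
  refine (h1.seq h2).congr ?_ (by omega)
  funext w
  simp only [update_apply]
  split_ifs <;> simp_all

theorem enc_pair {α β : Type} [N487b59b3 α] [N487b59b3 β] (a : α) (b : β) :
    enc (a, b) = delimit (enc a) ++ enc b := rfl

theorem PT.fst {α β : Type} [N487b59b3 α] [N487b59b3 β] : PT (fun p : α × β => p.1) := by
  refine ⟨.seq (undelim 0 1) (.seq (clear 0) (moveRev 1 0)), 20 * Polynomial.X + 20, ?_⟩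
  rintro ⟨a, b⟩
  have h1 := undelim_runs (src := 0) (dst := 1) (by decide) (enc a) (enc b)
    (single 0 (enc (a, b))) (by simp [single, enc_pair])
  have h2 := clear_runs 0 (update (update (single 0 (enc (a, b))) 0 (enc b)) 1
    ((enc a).reverse ++ single 0 (enc (a, b)) 1))
  have h3 := moveRev_runs (src := 1) (dst := 0) (by decide)
    (update (update (update (single 0 (enc (a, b))) 0 (enc b)) 1
    ((enc a).reverse ++ single 0 (enc (a, b)) 1)) 0 [])
  refine (h1.seq (h2.seq h3)).congr ?_ ?_
  · funext w
    simp only [update_apply, single]
    split_ifs <;> simp_all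
  · have e1 : (update (update (single 0 (enc (a, b))) 0 (enc b)) 1
      ((enc a).reverse ++ single 0 (enc (a, b)) 1)) 0 = enc b := by simp
    have e2 : (update (update (update (single 0 (enc (a, b))) 0 (enc b)) 1
      ((enc a).reverse ++ single 0 (enc (a, b)) 1)) 0 []) 1 = (enc a).reverse := by
      simp [single]
    rw [e1, e2, List.length_reverse, enc_pair, List.length_append, length_delimit]
    simp
    omega

theorem PT.snd {α β : Type} [N487b59b3 α] [N487b59b3 β] : PT (fun p : α × β => p.2) := by
  refine ⟨.seq (undelim 0 1) (clear 1), 20 * Polynomial.X + 20, ?_⟩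
  rintro ⟨a, b⟩
  have h1 := undelim_runs (src := 0) (dst := 1) (by decide) (enc a) (enc b)
    (single 0 (enc (a, b))) (by simp [single, enc_pair])
  have h2 := clear_runs 1 (update (update (single 0 (enc (a, b))) 0 (enc b)) 1
    ((enc a).reverse ++ single 0 (enc (a, b)) 1))
  refine (h1.seq h2).congr ?_ ?_
  · funext w
    simp only [update_apply, single]
    split_ifs <;> simp_all
  · have e1 : (update (update (single 0 (enc (a, b))) 0 (enc b)) 1
      ((enc a).reverse ++ single 0 (enc (a, b)) 1)) 1 = (enc a).reverse := by simp [single]
    rw [e1, List.length_reverse, enc_pair, List.length_append, length_delimit]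
    simp
    omega

/-- from registers `0` and `1` to the encoding of the pair in register `0` (tmp register `2`) -/
def mkPair : Cmd :=
  .seq (.push 1 false) (.seq (moveRev 0 2) (.seq (moveDl 2 1) (move 1 0 2)))

theorem mkPair_runs (x y : List Bool) (S : Store) (h0 : S 0 = x) (h1 : S 1 = y) (h2 : S 2 = []) :
    Runs mkPair S (update (update S 0 (delimit x ++ y)) 1 []) (30 * (x.length + y.length) + 30) := by
  have e1 := Runs.push 1 false S
  have e2 := moveRev_runs (src := 0) (dst := 2) (by decide) (update S 1 (false :: S 1))
  have e3 := moveDl_runs (src := 2) (dst := 1) (by decide)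
    (update (update (update S 1 (false :: S 1)) 0 []) 2
      ((update S 1 (false :: S 1) 0).reverse ++ (update S 1 (false :: S 1)) 2))
  set T := update (update (update (update (update S 1 (false :: S 1)) 0 []) 2
      ((update S 1 (false :: S 1) 0).reverse ++ (update S 1 (false :: S 1)) 2)) 2 []) 1
      (dl ((update (update (update S 1 (false :: S 1)) 0 []) 2
      ((update S 1 (false :: S 1) 0).reverse ++ (update S 1 (false :: S 1)) 2)) 2).reverse ++
      (update (update (update S 1 (false :: S 1)) 0 []) 2
      ((update S 1 (false :: S 1) 0).reverse ++ (update S 1 (false :: S 1)) 2)) 1) with hT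
  have hTeq : T = update (update (update S 0 []) 2 []) 1 (delimit x ++ y) := by
    rw [hT]
    clear_value T
    subst h0 h1
    funext w
    simp only [update_apply, h2, delimit_eq]
    by_cases hw0 : w = 0
    · subst hw0; simp
    · by_cases hw1 : w = 1
      · subst hw1; simp
      · by_cases hw2 : w = 2
        · subst hw2; simp
        · simp [hw0, hw1, hw2]
  have e4 := move_runs (src := 1) (dst := 0) (tmp := 2) (by decide) (by decide) (by decide) T
    (by rw [hTeq]; simp)
  refine (e1.seq (e2.seq (e3.seq e4))).congr ?_ ?_
  · rw [hTeq]
    funext w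
    simp only [update_apply]
    split_ifs <;> simp_all
  · rw [hTeq]
    simp [h0, h2, delimit_eq, length_dl]
    omega

theorem PT.pair {α β γ : Type} [N487b59b3 α] [N487b59b3 β] [N487b59b3 γ] {f : α → β} {g : α → γ}
    (hf : PT f) (hg : PT g) : PT (fun a => (f a, g a)) := by
  obtain ⟨c, p, hc⟩ := hf
  obtain ⟨d, q, hd⟩ := hg
  refine ⟨.seq (copy 0 1 2) (.seq (c.at 0 3) (.seq (d.at 1 3) mkPair)),
    10 * Polynomial.X + 2 + p + q + 30 * (Polynomial.X + p + (Polynomial.X + q)) + 30, ?_⟩
  intro a
  have e1 := copy_runs (src := 0) (dst := 1) (tmp := 2) (by decide) (by decide) (by decide)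
    (single 0 (enc a)) (by simp [single])
  set S1 := update (single 0 (enc a)) 1 (single 0 (enc a) 0 ++ single 0 (enc a) 1) with hS1
  have hS1' : S1 = update (single 0 (enc a)) 1 (enc a) := by rw [hS1]; simp [single]
  have e2 := run_at (hc a) (r := 0) (K := 3) (by decide) S1 (by rw [hS1']; simp [single])
    (by
      intro w hw
      rw [hS1', update_of_ne (by omega)]
      simp only [single]
      rw [if_neg (by omega)])
  have e3 := run_at (hd a) (r := 1) (K := 3) (by decide) (update S1 0 (enc (f a)))
    (by rw [hS1']; simp)
    (by
      intro w hw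
      rw [update_of_ne (by omega), hS1', update_of_ne (by omega)]
      simp only [single]
      rw [if_neg (by omega)])
  have e4 := mkPair_runs (enc (f a)) (enc (g a)) (update (update S1 0 (enc (f a))) 1 (enc (g a)))
    (by simp) (by simp) (by rw [hS1']; simp [single])
  have l1 := (hc a).length_le 0
  have l2 := (hd a).length_le 0
  simp only [single, if_true] at l1 l2
  refine (e1.seq (e2.seq (e3.seq e4))).congr ?_ ?_
  · rw [hS1', enc_pair]
    funext w
    simp only [update_apply, single]
    split_ifs <;> simp_all
  · simp only [single, if_true, Polynomial.eval_add, Polynomial.eval_mul, Polynomial.eval_X,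
      Polynomial.eval_ofNat]
    omega

theorem PT.ite {α β : Type} [N487b59b3 α] [N487b59b3 β] {b : α → Bool} {f g : α → β}
    (hb : PT b) (hf : PT f) (hg : PT g) : PT (fun a => if b a then f a else g a) := by
  obtain ⟨cb, pb, hcb⟩ := hb
  obtain ⟨c, p, hc⟩ := hf
  obtain ⟨d, q, hd⟩ := hg
  refine ⟨.seq (copy 0 1 2) (.seq (cb.at 1 3) (.ite 1 ist (.seq (.pop 1) c) (.seq (.pop 1) d))),
    10 * Polynomial.X + 2 + pb + 2 + p + q, ?_⟩
  intro a
  have e1 := copy_runs (src := 0) (dst := 1) (tmp := 2) (by decide) (by decide) (by decide)
    (single 0 (enc a)) (by simp [single])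
  set S1 := update (single 0 (enc a)) 1 (single 0 (enc a) 0 ++ single 0 (enc a) 1) with hS1
  have hS1' : S1 = update (single 0 (enc a)) 1 (enc a) := by rw [hS1]; simp [single]
  have e2 := run_at (hcb a) (r := 1) (K := 3) (by decide) S1 (by rw [hS1']; simp)
    (by
      intro w hw
      rw [hS1', update_of_ne (by omega)]
      simp only [single]
      rw [if_neg (by omega)])
  have hS2 : update S1 1 (enc (b a)) = update (single 0 (enc a)) 1 [b a] := by
    rw [hS1', update_idem]; rfl
  rw [hS2] at e2
  have e3 := Runs.pop 1 (update (single 0 (enc a)) 1 [b a])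
  have hpop : update (update (single 0 (enc a)) 1 [b a]) 1
      (update (single 0 (enc a)) 1 [b a] 1).tail = single 0 (enc a) := by
    funext w
    simp only [update_apply, single]
    split_ifs <;> simp_all
  rw [hpop] at e3
  have hlen : (single 0 (enc a) 0).length = (enc a).length := by simp [single]
  cases hba : b a with
  | true =>
    rw [hba] at e2 e3
    have e5 : Runs (.ite 1 ist (.seq (.pop 1) c) (.seq (.pop 1) d))
        (update (single 0 (enc a)) 1 [true]) (single 0 (enc (f a)))
        (1 + (1 + p.eval (enc a).length)) :=
      Runs.ite_t (by simp [ist]) (e3.seq (hc a))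
    refine (e1.seq (e2.seq e5)).congr ?_ ?_
    · simp [hba]
    · simp only [hlen, Polynomial.eval_add, Polynomial.eval_mul, Polynomial.eval_X,
        Polynomial.eval_ofNat]
      omega
  | false =>
    rw [hba] at e2 e3
    have e5 : Runs (.ite 1 ist (.seq (.pop 1) c) (.seq (.pop 1) d))
        (update (single 0 (enc a)) 1 [false]) (single 0 (enc (g a)))
        (1 + (1 + q.eval (enc a).length)) :=
      Runs.ite_f (by simp [ist]) (e3.seq (hd a))
    refine (e1.seq (e2.seq e5)).congr ?_ ?_
    · simp [hba]
    · simp only [hlen, Polynomial.eval_add, Polynomial.eval_mul, Polynomial.eval_X,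
        Polynomial.eval_ofNat]
      omega

end Pool.Agent.PT
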