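import Pool.Agent.Lib_helper88.PolyTime.Closure

/-!
# Polynomial-time functions: constants, lists, iteration along a list
-/

set_option autoImplicit false
set_option linter.dupNamespace false

namespace Pool.Agent.PT

open Function N487b59b3

/-- the store whose registers `0,1,...` are the entries of the list, all others empty -/
def st (L : List (List Bool)) : Store := fun w => L.getD w []

theorem st_apply (L : List (List Bool)) (w : ℕ) : st L w = L.getD w [] := rfl

theorem update_st (L : List (List Bool)) (i : ℕ) (x : List Bool) (h : i < L.length) :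
    update (st L) i x = st (L.set i x) := by
  funext w
  by_cases hw : w = i
  · subst hw
    rw [update_self, st_apply, List.getD_eq_getElem?_getD, List.getElem?_set_self h]
    rfl
  · rw [update_of_ne hw, st_apply, st_apply, List.getD_eq_getElem?_getD,
      List.getD_eq_getElem?_getD, List.getElem?_set_ne (fun h => hw h.symm)]

theorem single_eq_st (l : List Bool) (k : ℕ) : single 0 l = st (l :: List.replicate k []) := by
  funext w
  cases w with
  | zero => rfl
  | succ w =>
    simp only [single, st_apply, List.getD_cons_succ]
    rw [if_neg (by omega), List.getD_eq_getElem?_getD, List.getElem?_replicate]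
    split_ifs <;> rfl

/-- push a whole list -/
def pushAll (v : ℕ) : List Bool → Cmd
  | [] => .skip
  | b :: l => .seq (pushAll v l) (.push v b)

theorem pushAll_runs (v : ℕ) (l : List Bool) (S : Store) :
    Runs (pushAll v l) S (update S v (l ++ S v)) (l.length + 1) := by
  induction l with
  | nil =>
    refine (Runs.skip S).congr ?_ (by simp)
    simp
  | cons b l ih =>
    refine (ih.seq (Runs.push v b _)).congr ?_ (by simp)
    simp

theorem PT.const {α β : Type} [N487b59b3 α] [N487b59b3 β] (b : β) : PT (fun _ : α => b) := by
  refine ⟨.seq (clear 0) (pushAll 0 (enc b)), 2 * Polynomial.X + Polynomial.C ((enc b).length + 2),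
    fun a => ?_⟩
  refine ((clear_runs 0 _).seq (pushAll_runs 0 (enc b) _)).congr ?_ ?_
  · funext w
    simp only [update_apply, single]
    split_ifs <;> simp_all
  · simp [single]
    omega

theorem PT.congr {α β : Type} [N487b59b3 α] [N487b59b3 β] {f g : α → β} (hf : PT f)
    (h : ∀ a, f a = g a) : PT g := by
  have : f = g := funext h
  rwa [this] at hf

theorem PT.cond {α β : Type} [N487b59b3 α] [N487b59b3 β] {b : α → Bool} {f g : α → β}
    (hb : PT b) (hf : PT f) (hg : PT g) : PT (fun a => bif b a then f a else g a) :=
  (PT.ite hb hf hg).congr fun a => by cases b a <;> rfl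

theorem PT.cons {α β : Type} [N487b59b3 α] [N487b59b3 β] {f : α → β} {g : α → List β}
    (hf : PT f) (hg : PT g) : PT (fun a => f a :: g a) :=
  (PT.of_enc_eq (f := fun p : β × List β => p.1 :: p.2) fun _ => rfl).comp (hf.pair hg)

theorem enc_cons {α : Type} [N487b59b3 α] (a : α) (l : List α) :
    enc (a :: l) = delimit (enc a) ++ enc l := rfl

theorem enc_nil {α : Type} [N487b59b3 α] : enc ([] : List α) = [] := rfl

theorem enc_append {α : Type} [N487b59b3 α] (l m : List α) : enc (l ++ m) = enc l ++ enc m := by
  induction l with
  | nil => rfl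
  | cons a l ih => rw [List.cons_append, enc_cons, ih, enc_cons, List.append_assoc]

theorem delimit_ne_nil (l : List Bool) : ∃ b m, delimit l = b :: m := by
  cases l with
  | nil => exact ⟨_, _, rfl⟩
  | cons b l => exact ⟨_, _, rfl⟩

theorem length_le_enc {α : Type} [N487b59b3 α] (l : List α) : l.length ≤ (enc l).length := by
  induction l with
  | nil => simp
  | cons a l ih =>
    rw [enc_cons, List.length_append, length_delimit, List.length_cons]
    omega

theorem enc_bool (b : Bool) : enc b = [b] := rfl

theorem PT.isEmpty {α : Type} [N487b59b3 α] : PT (fun l : List α => l.isEmpty) := by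
  refine ⟨.ite 0 isne (.seq (clear 0) (.push 0 false)) (.push 0 true), 2 * Polynomial.X + 3,
    fun l => ?_⟩
  cases l with
  | nil =>
    refine (Runs.ite_f (by simp [single, enc_nil, isne]) (Runs.push 0 true _)).congr ?_ ?_
    · funext w
      simp only [update_apply, single, List.isEmpty_nil, enc_bool, enc_nil]
      split_ifs <;> simp_all
    · simp [enc_nil]
  | cons a l =>
    obtain ⟨b, m, hbm⟩ := delimit_ne_nil (enc a)
    refine (Runs.ite_t (by simp [single, enc_cons, isne, hbm])
      ((clear_runs 0 _).seq (Runs.push 0 false _))).congr ?_ ?_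
    · funext w
      simp only [update_apply, single, List.isEmpty_cons, enc_bool]
      split_ifs <;> simp_all
    · simp [single]
      omega

theorem PT.tail {α : Type} [N487b59b3 α] : PT (fun l : List α => l.tail) := by
  refine ⟨.ite 0 isne (.seq (undelim 0 1) (clear 1)) .skip, 10 * Polynomial.X + 10,
    fun l => ?_⟩
  cases l with
  | nil =>
    refine (Runs.ite_f (by simp [single, enc_nil, isne]) (Runs.skip _)).congr rfl ?_
    simp
  | cons a l =>
    obtain ⟨b, m, hbm⟩ := delimit_ne_nil (enc a)
    have h1 := undelim_runs (src := 0) (dst := 1) (by decide) (enc a) (enc l)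
      (single 0 (enc (a :: l))) (by simp [single, enc_cons])
    refine (Runs.ite_t (by simp [single, enc_cons, isne, hbm]) (h1.seq (clear_runs 1 _))).congr
      ?_ ?_
    · funext w
      simp only [update_apply, single, List.tail_cons]
      split_ifs <;> simp_all
    · simp [single, enc_cons]
      omega

/-- head of a list with a default value -/
theorem PT.headD {α : Type} [N487b59b3 α] : PT (fun p : α × List α => p.2.headD p.1) := by
  refine ⟨.seq (undelim 0 1) (.seq (.ite 0 isne (.seq (clear 1) (.seq (undelim 0 1) (clear 0)))
    .skip) (moveRev 1 0)), 30 * Polynomial.X + 30, ?_⟩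
  rintro ⟨a, l⟩
  have h1 := undelim_runs (src := 0) (dst := 1) (by decide) (enc a) (enc l)
    (single 0 (enc (a, l))) (by simp [single, enc_pair])
  have e1 : update (update (single 0 (enc (a, l))) 0 (enc l)) 1
      ((enc a).reverse ++ single 0 (enc (a, l)) 1) = st [enc l, (enc a).reverse] := by
    rw [single_eq_st _ 1, update_st _ _ _ (by simp), update_st _ _ _ (by simp)]
    simp [st_apply]
  rw [e1] at h1
  cases l with
  | nil =>
    have h2 : Runs (.ite 0 isne (.seq (clear 1) (.seq (undelim 0 1) (clear 0))) .skip)
        (st [enc ([] : List α), (enc a).reverse]) (st [enc ([] : List α), (enc a).reverse]) 2 :=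
      Runs.ite_f (by simp [st_apply, enc_nil, isne]) (Runs.skip _)
    have h3 := moveRev_runs (src := 1) (dst := 0) (by decide)
      (st [enc ([] : List α), (enc a).reverse])
    refine (h1.seq (h2.seq h3)).congr ?_ ?_
    · rw [update_st _ _ _ (by simp), update_st _ _ _ (by simp), single_eq_st _ 1]
      simp [st_apply, enc_nil]
    · simp [st_apply, enc_pair, enc_nil]
      omega
  | cons b l =>
    obtain ⟨c, m, hcm⟩ := delimit_ne_nil (enc b)
    have h2 := clear_runs 1 (st [enc (b :: l), (enc a).reverse])
    have h3 := undelim_runs (src := 0) (dst := 1) (by decide) (enc b) (enc l)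
      (update (st [enc (b :: l), (enc a).reverse]) 1 []) (by simp [st_apply, enc_cons])
    have e3 : update (update (update (st [enc (b :: l), (enc a).reverse]) 1 []) 0 (enc l)) 1
      ((enc b).reverse ++ (update (st [enc (b :: l), (enc a).reverse]) 1 []) 1) =
        st [enc l, (enc b).reverse] := by
      rw [update_st _ _ _ (by simp), update_st _ _ _ (by simp), update_st _ _ _ (by simp)]
      simp [st_apply]
    rw [e3] at h3
    have h4 := clear_runs 0 (st [enc l, (enc b).reverse])
    have h5 : Runs (.ite 0 isne (.seq (clear 1) (.seq (undelim 0 1) (clear 0))) .skip)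
        (st [enc (b :: l), (enc a).reverse]) (update (st [enc l, (enc b).reverse]) 0 []) _ :=
      Runs.ite_t (by simp [st_apply, enc_cons, hcm, isne]) (h2.seq (h3.seq h4))
    have h6 := moveRev_runs (src := 1) (dst := 0) (by decide)
      (update (st [enc l, (enc b).reverse]) 0 [])
    refine (h1.seq (h5.seq h6)).congr ?_ ?_
    · rw [update_st _ _ _ (by simp), update_st _ _ _ (by simp), update_st _ _ _ (by simp),
        single_eq_st _ 1]
      simp [st_apply]
    · simp [st_apply, enc_pair, enc_cons]
      omega

theorem push_st (v : ℕ) (b : Bool) (L : List (List Bool)) (h : v < L.length) :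
    Runs (.push v b) (st L) (st (L.set v (b :: L.getD v []))) 1 := by
  have := Runs.push v b (st L)
  rwa [update_st _ _ _ h, st_apply] at this

theorem clear_st (v : ℕ) (L : List (List Bool)) (h : v < L.length) :
    Runs (clear v) (st L) (st (L.set v [])) (2 * (L.getD v []).length + 1) := by
  have := clear_runs v (st L)
  rwa [update_st _ _ _ h, st_apply] at this

theorem moveRev_st {i j : ℕ} (L : List (List Bool)) (hij : i ≠ j) (hi : i < L.length)
    (hj : j < L.length) : Runs (moveRev i j) (st L)
      (st ((L.set i []).set j ((L.getD i []).reverse ++ L.getD j [])))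
      (4 * (L.getD i []).length + 1) := by
  have := moveRev_runs hij (st L)
  rwa [update_st _ _ _ hi, update_st _ _ _ (by simpa using hj), st_apply, st_apply] at this

theorem moveDl_st {i j : ℕ} (L : List (List Bool)) (hij : i ≠ j) (hi : i < L.length)
    (hj : j < L.length) : Runs (moveDl i j) (st L)
      (st ((L.set i []).set j (dl (L.getD i []).reverse ++ L.getD j [])))
      (5 * (L.getD i []).length + 1) := by
  have := moveDl_runs hij (st L)
  rwa [update_st _ _ _ hi, update_st _ _ _ (by simpa using hj), st_apply, st_apply] at this

theorem moveDl2_st {i j k : ℕ} (L : List (List Bool)) (hij : i ≠ j) (hik : i ≠ k) (hjk : j ≠ k)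
    (hi : i < L.length) (hj : j < L.length) (hk : k < L.length) : Runs (moveDl2 i j k) (st L)
      (st (((L.set i []).set j (dl (L.getD i []).reverse ++ L.getD j [])).set k
        ((L.getD i []).reverse ++ L.getD k []))) (7 * (L.getD i []).length + 1) := by
  have := moveDl2_runs hij hik hjk (st L)
  rwa [update_st _ _ _ hi, update_st _ _ _ (by simpa using hj),
    update_st _ _ _ (by simpa using hk), st_apply, st_apply, st_apply] at this

theorem undelim_st {i j : ℕ} (L : List (List Bool)) (l rest : List Bool) (hij : i ≠ j)
    (hi : i < L.length) (hj : j < L.length) (hl : L.getD i [] = delimit l ++ rest) :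
    Runs (undelim i j) (st L) (st ((L.set i rest).set j (l.reverse ++ L.getD j [])))
      (5 * l.length + 2) := by
  have := undelim_runs hij l rest (st L) hl
  rwa [update_st _ _ _ hi, update_st _ _ _ (by simpa using hj), st_apply] at this

theorem move_st {i j k : ℕ} (L : List (List Bool)) (hij : i ≠ j) (hik : i ≠ k) (hjk : j ≠ k)
    (hi : i < L.length) (hj : j < L.length) (hk : L.getD k [] = []) : Runs (move i j k) (st L)
      (st ((L.set i []).set j (L.getD i [] ++ L.getD j []))) (8 * (L.getD i []).length + 2) := by
  have := move_runs hij hik hjk (st L) hk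
  rwa [update_st _ _ _ hi, update_st _ _ _ (by simpa using hj), st_apply, st_apply] at this

theorem copy_st {i j k : ℕ} (L : List (List Bool)) (hij : i ≠ j) (hik : i ≠ k) (hjk : j ≠ k)
    (hj : j < L.length) (hk : L.getD k [] = []) : Runs (copy i j k) (st L)
      (st (L.set j (L.getD i [] ++ L.getD j []))) (10 * (L.getD i []).length + 2) := by
  have := copy_runs hij hik hjk (st L) hk
  rwa [update_st _ _ _ (by simpa using hj), st_apply, st_apply] at this

theorem at_st {c : Cmd} {l l' : List Bool} {t r K : ℕ}
    (h : Runs c (single 0 l) (single 0 l') t) (L : List (List Bool)) (hrK : r < K)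
    (hr : r < L.length) (hl : L.getD r [] = l) (hK : ∀ w, K ≤ w → L.getD w [] = []) :
    Runs (c.at r K) (st L) (st (L.set r l')) t := by
  have := run_at h hrK (st L) hl hK
  rwa [update_st _ _ _ hr] at this

/-- the body of the loop of `foldl` -/
def foldBody (c : Cmd) : Cmd :=
  .seq (undelim 0 1) (.seq (moveRev 1 4) (.seq (.push 4 false) (.seq (moveRev 3 5)
  (.seq (moveDl 5 4) (.seq (.push 4 false) (.seq (moveRev 2 5) (.seq (moveDl2 5 4 2)
  (.seq (c.at 4 5) (move 4 3 5)))))))))

theorem foldBody_runs {c : Cmd} {a e s s' : List Bool} {t : ℕ}
    (h : Runs c (single 0 (delimit e ++ (delimit s ++ a))) (single 0 s') t) (l : List Bool) :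
    Runs (foldBody c) (st [delimit a ++ l, [], e, s, [], []]) (st [l, [], e, s', [], []])
      (20 * (a.length + e.length + s.length + s'.length) + t + 20) := by
  have h1 : Runs (undelim 0 1) (st [delimit a ++ l, [], e, s, [], []])
      (st [l, a.reverse, e, s, [], []]) (5 * a.length + 2) := by
    simpa using undelim_st (i := 0) (j := 1) [delimit a ++ l, [], e, s, [], []] a l
      (by decide) (by simp) (by simp) (by simp)
  have h2 : Runs (moveRev 1 4) (st [l, a.reverse, e, s, [], []])
      (st [l, [], e, s, a, []]) (4 * a.length + 1) := by
    simpa using moveRev_st (i := 1) (j := 4) [l, a.reverse, e, s, [], []]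
      (by decide) (by simp) (by simp)
  have h3 : Runs (.push 4 false) (st [l, [], e, s, a, []])
      (st [l, [], e, s, false :: a, []]) 1 := by
    simpa using push_st 4 false [l, [], e, s, a, []] (by simp)
  have h4 : Runs (moveRev 3 5) (st [l, [], e, s, false :: a, []])
      (st [l, [], e, [], false :: a, s.reverse]) (4 * s.length + 1) := by
    simpa using moveRev_st (i := 3) (j := 5) [l, [], e, s, false :: a, []]
      (by decide) (by simp) (by simp)
  have h5 : Runs (moveDl 5 4) (st [l, [], e, [], false :: a, s.reverse])
      (st [l, [], e, [], delimit s ++ a, []]) (5 * s.length + 1) := by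
    simpa [delimit_eq] using moveDl_st (i := 5) (j := 4) [l, [], e, [], false :: a, s.reverse]
      (by decide) (by simp) (by simp)
  have h6 : Runs (.push 4 false) (st [l, [], e, [], delimit s ++ a, []])
      (st [l, [], e, [], false :: (delimit s ++ a), []]) 1 := by
    simpa using push_st 4 false [l, [], e, [], delimit s ++ a, []] (by simp)
  have h7 : Runs (moveRev 2 5) (st [l, [], e, [], false :: (delimit s ++ a), []])
      (st [l, [], [], [], false :: (delimit s ++ a), e.reverse]) (4 * e.length + 1) := by
    simpa using moveRev_st (i := 2) (j := 5) [l, [], e, [], false :: (delimit s ++ a), []]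
      (by decide) (by simp) (by simp)
  have h8 : Runs (moveDl2 5 4 2) (st [l, [], [], [], false :: (delimit s ++ a), e.reverse])
      (st [l, [], e, [], delimit e ++ (delimit s ++ a), []]) (7 * e.length + 1) := by
    simpa [delimit_eq] using moveDl2_st (i := 5) (j := 4) (k := 2)
      [l, [], [], [], false :: (delimit s ++ a), e.reverse]
      (by decide) (by decide) (by decide) (by simp) (by simp) (by simp)
  have h9 : Runs (c.at 4 5) (st [l, [], e, [], delimit e ++ (delimit s ++ a), []])
      (st [l, [], e, [], s', []]) t := by
    have := at_st (r := 4) (K := 5) h [l, [], e, [], delimit e ++ (delimit s ++ a), []]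
      (by decide) (by simp) (by simp) (by
        intro w hw
        obtain ⟨v, rfl⟩ := Nat.exists_eq_add_of_le hw
        cases v with
        | zero => simp
        | succ v =>
          rw [List.getD_eq_default _ _ (by
            simp only [List.length_cons, List.length_nil]; omega)])
    simpa using this
  have h10 : Runs (move 4 3 5) (st [l, [], e, [], s', []])
      (st [l, [], e, s', [], []]) (8 * s'.length + 2) := by
    simpa using move_st (i := 4) (j := 3) (k := 5) [l, [], e, [], s', []]
      (by decide) (by decide) (by decide) (by simp) (by simp) (by simp)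
  refine (h1.seq (h2.seq (h3.seq (h4.seq (h5.seq (h6.seq (h7.seq (h8.seq
    (h9.seq h10))))))))).mono ?_
  omega

/-- iteration along a list, with an environment -/
theorem PT.foldl {ε σ α : Type} [N487b59b3 ε] [N487b59b3 σ] [N487b59b3 α] {g : ε × σ × α → σ}
    (hg : PT g) (q : Polynomial ℕ)
    (hq : ∀ (e : ε) (s : σ) (l : List α),
      (enc (l.foldl (fun s a => g (e, s, a)) s)).length ≤ q.eval (enc (e, s, l)).length) :
    PT (fun p : ε × σ × List α => p.2.2.foldl (fun s a => g (p.1, s, a)) p.2.1) := by
  obtain ⟨c, p, hc⟩ := hg
  have hloop : ∀ (e : ε) (B : ℕ) (l : List α) (s : σ),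
      (∀ a ∈ l, (enc a).length ≤ B) → (enc e).length ≤ B →
      (∀ l', l' <+: l → (enc (l'.foldl (fun s a => g (e, s, a)) s)).length ≤ B) →
      Runs (.loop 0 isne (foldBody c)) (st [enc l, [], enc e, enc s, [], []])
        (st [[], [], enc e, enc (l.foldl (fun s a => g (e, s, a)) s), [], []])
        (l.length * (80 * B + p.eval (5 * B + 2) + 21) + 1) := by
    intro e B l
    induction l with
    | nil =>
      intro s _ _ _
      refine (Runs.loop_f ?_).congr ?_ (by omega)
      · simp [st_apply, enc_nil, isne]
      · simp [enc_nil]
    | cons a l ih =>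
      intro s h1 h2 h3
      have hs : (enc s).length ≤ B := by simpa using h3 [] (List.nil_prefix)
      have hs' : (enc (g (e, s, a))).length ≤ B := by
        simpa using h3 [a] (by simp)
      have ha := h1 a (by simp)
      have hb := foldBody_runs (a := enc a) (e := enc e) (s := enc s) (s' := enc (g (e, s, a)))
        (hc (e, s, a)) (enc l)
      have hr := ih (g (e, s, a)) (fun b hb => h1 b (by simp [hb])) h2
        (fun l' hl' => by
          have := h3 (a :: l') (by simpa using hl')
          simpa using this)
      obtain ⟨b, m, hbm⟩ := delimit_ne_nil (enc a)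
      have hlen : (enc (e, s, a)).length ≤ 5 * B + 2 := by
        rw [enc_pair, enc_pair, List.length_append, List.length_append, length_delimit,
          length_delimit]
        omega
      have hp := poly_mono p hlen
      refine (Runs.loop_t ?_ hb hr).mono ?_
      · simp [st_apply, isne, hbm]
      · rw [List.length_cons, add_one_mul]
        omega
  refine ⟨.seq (undelim 0 1) (.seq (moveRev 1 2) (.seq (undelim 0 1) (.seq (moveRev 1 3)
    (.seq (.loop 0 isne (foldBody c)) (.seq (clear 2) (move 3 0 1)))))),
    20 * Polynomial.X + (Polynomial.X * (80 * (Polynomial.X + q) +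
      p.comp (5 * (Polynomial.X + q) + 2) + 21) + 1) + 2 * Polynomial.X + 8 * q + 20, ?_⟩
  rintro ⟨e, s, l⟩
  set n := (enc (e, s, l)).length with hn
  have hlen : n = 2 * (enc e).length + 1 + (2 * (enc s).length + 1 + (enc l).length) := by
    rw [hn, enc_pair, enc_pair, List.length_append, List.length_append, length_delimit,
      length_delimit]
  have h1 : Runs (undelim 0 1) (st [enc (e, s, l), [], [], [], [], []])
      (st [delimit (enc s) ++ enc l, (enc e).reverse, [], [], [], []]) (5 * (enc e).length + 2) := by
    simpa using undelim_st (i := 0) (j := 1) [enc (e, s, l), [], [], [], [], []] (enc e)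
      (delimit (enc s) ++ enc l) (by decide) (by simp) (by simp) (by simp [enc_pair])
  have h2 : Runs (moveRev 1 2) (st [delimit (enc s) ++ enc l, (enc e).reverse, [], [], [], []])
      (st [delimit (enc s) ++ enc l, [], enc e, [], [], []]) (4 * (enc e).length + 1) := by
    simpa using moveRev_st (i := 1) (j := 2)
      [delimit (enc s) ++ enc l, (enc e).reverse, [], [], [], []] (by decide) (by simp) (by simp)
  have h3 : Runs (undelim 0 1) (st [delimit (enc s) ++ enc l, [], enc e, [], [], []])
      (st [enc l, (enc s).reverse, enc e, [], [], []]) (5 * (enc s).length + 2) := by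
    simpa using undelim_st (i := 0) (j := 1) [delimit (enc s) ++ enc l, [], enc e, [], [], []]
      (enc s) (enc l) (by decide) (by simp) (by simp) (by simp)
  have h4 : Runs (moveRev 1 3) (st [enc l, (enc s).reverse, enc e, [], [], []])
      (st [enc l, [], enc e, enc s, [], []]) (4 * (enc s).length + 1) := by
    simpa using moveRev_st (i := 1) (j := 3)
      [enc l, (enc s).reverse, enc e, [], [], []] (by decide) (by simp) (by simp)
  have hmem : ∀ a ∈ l, (enc a).length ≤ (enc l).length := by
    intro a ha
    obtain ⟨l1, l2, rfl⟩ := List.append_of_mem ha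
    rw [enc_append, enc_cons, List.length_append, List.length_append, length_delimit]
    omega
  have hpre : ∀ l', l' <+: l →
      (enc (l'.foldl (fun s a => g (e, s, a)) s)).length ≤ n + q.eval n := by
    intro l' hl'
    refine le_trans (hq e s l') ?_
    obtain ⟨l2, rfl⟩ := hl'
    refine le_trans (poly_mono q ?_) (Nat.le_add_left _ _)
    rw [hlen, enc_append, enc_pair, enc_pair, List.length_append, List.length_append,
      length_delimit, length_delimit, List.length_append]
    omega
  have h5 := hloop e (n + q.eval n) l s (fun a ha => by have := hmem a ha; omega) (by omega) hpre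
  have hout : (enc (l.foldl (fun s a => g (e, s, a)) s)).length ≤ q.eval n := hq e s l
  set r := l.foldl (fun s a => g (e, s, a)) s with hr
  have h6 : Runs (clear 2) (st [[], [], enc e, enc r, [], []])
      (st [[], [], [], enc r, [], []]) (2 * (enc e).length + 1) := by
    simpa using clear_st 2 [[], [], enc e, enc r, [], []] (by simp)
  have h7 : Runs (move 3 0 1) (st [[], [], [], enc r, [], []])
      (st [enc r, [], [], [], [], []]) (8 * (enc r).length + 2) := by
    simpa using move_st (i := 3) (j := 0) (k := 1) [[], [], [], enc r, [], []]
      (by decide) (by decide) (by decide) (by simp) (by simp) (by simp)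
  have hl1 : l.length ≤ n := by
    have := length_le_enc l
    omega
  have hmul := Nat.mul_le_mul_right (80 * (n + q.eval n) + p.eval (5 * (n + q.eval n) + 2) + 21) hl1
  rw [single_eq_st _ 5, single_eq_st _ 5]
  refine (h1.seq (h2.seq (h3.seq (h4.seq (h5.seq (h6.seq h7)))))).mono ?_
  simp only [Polynomial.eval_add, Polynomial.eval_mul, Polynomial.eval_X, Polynomial.eval_ofNat,
    Polynomial.eval_comp, Polynomial.eval_one]
  omega

end Pool.Agent.PT
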