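import Mathlib
import Pool.Prelude.Def_H_3587d628

/-!
# Structured register programs and their compilation to Mathlib's `FinTM2`

A register holds a bit string; registers are numbered by natural numbers. Programs are built from
`push`, `pop`, `skip`, sequencing, branching on the head of a register, and loops guarded by a test
on the head of a register. `Exec c S S' t` is the big-step semantics with the number `t` of steps.
-/

set_option autoImplicit false

namespace Pool.Agent.PT

open Turing StateTransition

/-- structured register programs -/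
inductive Cmd : Type
  | push (v : ℕ) (b : Bool)
  | pop (v : ℕ)
  | skip
  | seq (p q : Cmd)
  | ite (v : ℕ) (test : Option Bool → Bool) (p q : Cmd)
  | loop (v : ℕ) (test : Option Bool → Bool) (p : Cmd)

/-- contents of all registers -/
abbrev Store := ℕ → List Bool

/-- big-step semantics with time -/
inductive Exec : Cmd → Store → Store → ℕ → Prop
  | push (v : ℕ) (b : Bool) (S : Store) : Exec (.push v b) S (Function.update S v (b :: S v)) 1
  | pop (v : ℕ) (S : Store) : Exec (.pop v) S (Function.update S v (S v).tail) 1
  | skip (S : Store) : Exec .skip S S 1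
  | seq {p q : Cmd} {S S' S'' : Store} {t t' : ℕ} :
      Exec p S S' t → Exec q S' S'' t' → Exec (.seq p q) S S'' (t + t')
  | ite_t {v : ℕ} {test : Option Bool → Bool} {p q : Cmd} {S S' : Store} {t : ℕ} :
      test (S v).head? = true → Exec p S S' t → Exec (.ite v test p q) S S' (1 + t)
  | ite_f {v : ℕ} {test : Option Bool → Bool} {p q : Cmd} {S S' : Store} {t : ℕ} :
      test (S v).head? = false → Exec q S S' t → Exec (.ite v test p q) S S' (1 + t)
  | loop_f {v : ℕ} {test : Option Bool → Bool} {p : Cmd} {S : Store} :
      test (S v).head? = false → Exec (.loop v test p) S S 1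
  | loop_t {v : ℕ} {test : Option Bool → Bool} {p : Cmd} {S S' S'' : Store} {t t' : ℕ} :
      test (S v).head? = true → Exec p S S' t → Exec (.loop v test p) S' S'' t' →
        Exec (.loop v test p) S S'' (1 + t + t')

/-- all registers of the program are `≤ N` -/
def Cmd.regs : Cmd → ℕ → Prop
  | .push v _, N => v ≤ N
  | .pop v, N => v ≤ N
  | .skip, _ => True
  | .seq p q, N => p.regs N ∧ q.regs N
  | .ite v _ p q, N => v ≤ N ∧ p.regs N ∧ q.regs N
  | .loop v _ p, N => v ≤ N ∧ p.regs N

theorem Cmd.regs_mono {c : Cmd} {N M : ℕ} (h : N ≤ M) (hc : c.regs N) : c.regs M := by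
  induction c with
  | push v b => exact le_trans hc h
  | pop v => exact le_trans hc h
  | skip => trivial
  | seq p q ihp ihq => exact ⟨ihp hc.1, ihq hc.2⟩
  | ite v test p q ihp ihq => exact ⟨le_trans hc.1 h, ihp hc.2.1, ihq hc.2.2⟩
  | loop v test p ih => exact ⟨le_trans hc.1 h, ih hc.2⟩

theorem Cmd.exists_regs (c : Cmd) : ∃ N, c.regs N := by
  induction c with
  | push v b => exact ⟨v, le_rfl⟩
  | pop v => exact ⟨v, le_rfl⟩
  | skip => exact ⟨0, trivial⟩
  | seq p q ihp ihq =>
    obtain ⟨N, hN⟩ := ihp
    obtain ⟨M, hM⟩ := ihq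
    exact ⟨max N M, regs_mono (le_max_left _ _) hN, regs_mono (le_max_right _ _) hM⟩
  | ite v test p q ihp ihq =>
    obtain ⟨N, hN⟩ := ihp
    obtain ⟨M, hM⟩ := ihq
    exact ⟨max v (max N M), le_max_left _ _,
      regs_mono (le_trans (le_max_left _ _) (le_max_right _ _)) hN,
      regs_mono (le_trans (le_max_right _ _) (le_max_right _ _)) hM⟩
  | loop v test p ih =>
    obtain ⟨N, hN⟩ := ih
    exact ⟨max v N, le_max_left _ _, regs_mono (le_max_right _ _) hN⟩

/-- program points -/
def Lab : Cmd → Type
  | .push _ _ => Unit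
  | .pop _ => Unit
  | .skip => Unit
  | .seq p q => Lab p ⊕ Lab q
  | .ite _ _ p q => Option (Lab p ⊕ Lab q)
  | .loop _ _ p => Option (Lab p)

/-- finitely many program points -/
@[instance_reducible]
def Lab.fintype : (c : Cmd) → Fintype (Lab c)
  | .push _ _ => inferInstanceAs (Fintype Unit)
  | .pop _ => inferInstanceAs (Fintype Unit)
  | .skip => inferInstanceAs (Fintype Unit)
  | .seq p q =>
    letI := Lab.fintype p
    letI := Lab.fintype q
    inferInstanceAs (Fintype (Lab p ⊕ Lab q))
  | .ite _ _ p q =>
    letI := Lab.fintype p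
    letI := Lab.fintype q
    inferInstanceAs (Fintype (Option (Lab p ⊕ Lab q)))
  | .loop _ _ p =>
    letI := Lab.fintype p
    inferInstanceAs (Fintype (Option (Lab p)))

/-- entry point -/
def entry : (c : Cmd) → Lab c
  | .push _ _ => ()
  | .pop _ => ()
  | .skip => ()
  | .seq p _ => Sum.inl (entry p)
  | .ite _ _ _ _ => none
  | .loop _ _ _ => none

/-- the register `v` as an element of `Fin (N+1)` -/
def reg (N v : ℕ) : Fin (N + 1) := Fin.ofNat (N + 1) v

theorem reg_val {N v : ℕ} (h : v ≤ N) : ((reg N v : Fin (N + 1)) : ℕ) = v := by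
  simp only [reg, Fin.ofNat]
  exact Nat.mod_eq_of_lt (Nat.lt_succ_of_le h)

/-- statements of the compiled machine -/
abbrev St (N : ℕ) (Λ : Type) := TM2.Stmt (fun _ : Fin (N + 1) => Bool) Λ (Option Bool)

/-- compiled code -/
def code (N : ℕ) {Λ : Type} : (c : Cmd) → (Lab c → Λ) → Λ → Lab c → St N Λ
  | .push v b, _, ex, _ => TM2.Stmt.push (reg N v) (fun _ => b) (TM2.Stmt.goto fun _ => ex)
  | .pop v, _, ex, _ => TM2.Stmt.pop (reg N v) (fun s _ => s) (TM2.Stmt.goto fun _ => ex)
  | .skip, _, ex, _ => TM2.Stmt.goto fun _ => ex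
  | .seq p q, emb, ex, l =>
    match l with
    | Sum.inl l => code N p (fun l => emb (Sum.inl l)) (emb (Sum.inr (entry q))) l
    | Sum.inr l => code N q (fun l => emb (Sum.inr l)) ex l
  | .ite v test p q, emb, ex, l =>
    match l with
    | none => TM2.Stmt.peek (reg N v) (fun _ o => o) (TM2.Stmt.goto fun s =>
        if test s then emb (some (Sum.inl (entry p))) else emb (some (Sum.inr (entry q))))
    | some (Sum.inl l) => code N p (fun l => emb (some (Sum.inl l))) ex l
    | some (Sum.inr l) => code N q (fun l => emb (some (Sum.inr l))) ex l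
  | .loop v test p, emb, ex, l =>
    match l with
    | none => TM2.Stmt.peek (reg N v) (fun _ o => o) (TM2.Stmt.goto fun s =>
        if test s then emb (some (entry p)) else ex)
    | some l => code N p (fun l => emb (some l)) (emb none) l

/-- `t` steps of a machine lead from `a` to `b` -/
def Steps {N : ℕ} {Λ : Type} (M : Λ → St N Λ) (t : ℕ)
    (a b : TM2.Cfg (fun _ : Fin (N + 1) => Bool) Λ (Option Bool)) : Prop :=
  (flip bind (TM2.step M))^[t] (some a) = some b

theorem Steps.trans {N : ℕ} {Λ : Type} {M : Λ → St N Λ} {t t' : ℕ}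
    {a b c : TM2.Cfg (fun _ : Fin (N + 1) => Bool) Λ (Option Bool)}
    (h : Steps M t a b) (h' : Steps M t' b c) : Steps M (t + t') a c := by
  have e := Function.iterate_add_apply (flip bind (TM2.step M)) t' t (some a)
  have e2 : (flip bind (TM2.step M))^[t] (some a) = some b := h
  have e3 : (flip bind (TM2.step M))^[t'] (some b) = some c := h'
  have h3 : Steps M (t' + t) a c := e.trans ((congrArg _ e2).trans e3)
  rwa [Nat.add_comm] at h3

theorem Steps.single {N : ℕ} {Λ : Type} {M : Λ → St N Λ}
    {a b : TM2.Cfg (fun _ : Fin (N + 1) => Bool) Λ (Option Bool)}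
    (h : TM2.step M a = some b) : Steps M 1 a b := by
  unfold Steps
  simpa [flip] using h

/-- restriction of a store to the registers of the machine -/
def res (N : ℕ) (S : Store) : (k : Fin (N + 1)) → List ((fun _ : Fin (N + 1) => Bool) k) :=
  fun k => S k

theorem res_update {N v : ℕ} (h : v ≤ N) (S : Store) (l : List Bool) :
    Function.update (res N S) (reg N v) l = res N (Function.update S v l) := by
  funext k
  by_cases hk : k = reg N v
  · subst hk
    simp only [res, Function.update_self, reg_val h]
  · rw [Function.update_of_ne hk]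
    have : (k : ℕ) ≠ v := by
      intro hkv
      apply hk
      apply Fin.ext
      rw [reg_val h, hkv]
    simp only [res, Function.update_of_ne this]

theorem res_reg {N v : ℕ} (h : v ≤ N) (S : Store) : res N S (reg N v) = S v := by
  simp only [res, reg_val h]

theorem code_ite_entry (N : ℕ) {Λ : Type} (v : ℕ) (test : Option Bool → Bool) (p q : Cmd)
    (emb : Lab (.ite v test p q) → Λ) (ex : Λ) :
    code N (.ite v test p q) emb ex (entry (.ite v test p q)) =
      TM2.Stmt.peek (reg N v) (fun _ o => o) (TM2.Stmt.goto fun s =>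
        if test s then emb (some (Sum.inl (entry p))) else emb (some (Sum.inr (entry q)))) := rfl

theorem code_loop_entry (N : ℕ) {Λ : Type} (v : ℕ) (test : Option Bool → Bool) (p : Cmd)
    (emb : Lab (.loop v test p) → Λ) (ex : Λ) :
    code N (.loop v test p) emb ex (entry (.loop v test p)) =
      TM2.Stmt.peek (reg N v) (fun _ o => o) (TM2.Stmt.goto fun s =>
        if test s then emb (some (entry p)) else ex) := rfl

theorem code_correct (N : ℕ) {Λ : Type} (M : Λ → St N Λ) {c : Cmd} {S S' : Store} {t : ℕ}
    (hex : Exec c S S' t) :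
    ∀ (emb : Lab c → Λ) (ex : Λ), (∀ l, M (emb l) = code N c emb ex l) → c.regs N →
      ∀ s : Option Bool, ∃ s' : Option Bool,
        Steps M t ⟨some (emb (entry c)), s, res N S⟩ ⟨some ex, s', res N S'⟩ := by
  induction hex with
  | push v b S =>
    intro emb ex hM hr s
    refine ⟨s, Steps.single ?_⟩
    rw [TM2.step, hM]
    simp only [code, TM2.stepAux]
    rw [res_reg hr, res_update hr]
  | pop v S =>
    intro emb ex hM hr s
    refine ⟨s, Steps.single ?_⟩
    rw [TM2.step, hM]
    simp only [code, TM2.stepAux]
    rw [res_reg hr, res_update hr]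
  | skip S =>
    intro emb ex hM hr s
    refine ⟨s, Steps.single ?_⟩
    rw [TM2.step, hM]
    simp only [code, TM2.stepAux]
  | @seq p q S S' S'' t t' _ _ ihp ihq =>
    intro emb ex hM hr s
    obtain ⟨s1, h1⟩ := ihp (fun l => emb (Sum.inl l)) (emb (Sum.inr (entry q)))
      (fun l => hM (Sum.inl l)) hr.1 s
    obtain ⟨s2, h2⟩ := ihq (fun l => emb (Sum.inr l)) ex (fun l => hM (Sum.inr l)) hr.2 s1
    exact ⟨s2, h1.trans h2⟩
  | @ite_t v test p q S S' t htest _ ih =>
    intro emb ex hM hr s
    obtain ⟨s1, h1⟩ := ih (fun l => emb (some (Sum.inl l))) ex (fun l => hM (some (Sum.inl l)))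
      hr.2.1 (S v).head?
    refine ⟨s1, Steps.trans (Steps.single ?_) h1⟩
    rw [TM2.step, hM, code_ite_entry]
    simp only [TM2.stepAux]
    rw [res_reg hr.1, htest]
    simp
  | @ite_f v test p q S S' t htest _ ih =>
    intro emb ex hM hr s
    obtain ⟨s1, h1⟩ := ih (fun l => emb (some (Sum.inr l))) ex (fun l => hM (some (Sum.inr l)))
      hr.2.2 (S v).head?
    refine ⟨s1, Steps.trans (Steps.single ?_) h1⟩
    rw [TM2.step, hM, code_ite_entry]
    simp only [TM2.stepAux]
    rw [res_reg hr.1, htest]
    simp
  | @loop_f v test p S htest =>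
    intro emb ex hM hr s
    refine ⟨(S v).head?, Steps.single ?_⟩
    rw [TM2.step, hM, code_loop_entry]
    simp only [TM2.stepAux]
    rw [res_reg hr.1, htest]
    simp
  | @loop_t v test p S S' S'' t t' htest _ _ ih1 ih2 =>
    intro emb ex hM hr s
    obtain ⟨s1, h1⟩ := ih1 (fun l => emb (some l)) (emb none) (fun l => hM (some l)) hr.2
      (S v).head?
    obtain ⟨s2, h2⟩ := ih2 emb ex hM hr s1
    refine ⟨s2, Steps.trans (Steps.trans (Steps.single ?_) h1) h2⟩
    rw [TM2.step, hM, code_loop_entry]
    simp only [TM2.stepAux]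
    rw [res_reg hr.1, htest]
    simp

/-- the compiled machine: registers `0..N`, input register `0`, output register `0` -/
def machine (c : Cmd) (N : ℕ) : FinTM2 :=
  letI := Lab.fintype c
  { K := Fin (N + 1)
    k₀ := reg N 0
    k₁ := reg N 0
    Γ := fun _ => Bool
    Λ := Option (Lab c)
    main := some (entry c)
    σ := Option Bool
    initialState := none
    m := fun l => match l with
      | none => TM2.Stmt.load (fun _ => none) TM2.Stmt.halt
      | some l => code N c some none l }

/-- the store with a single nonempty register -/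
def single (v : ℕ) (l : List Bool) : Store := fun w => if w = v then l else []

/-- running a program on the compiled machine -/
theorem machine_outputs {c : Cmd} {N : ℕ} (hr : c.regs N) {l l' : List Bool} {t : ℕ}
    (hex : Exec c (single 0 l) (single 0 l') t) :
    Nonempty (TM2OutputsInTime (machine c N) l (some l') (t + 1)) := by
  obtain ⟨s, hs⟩ := code_correct N (Λ := Option (Lab c)) (machine c N).m hex some none
    (fun l => rfl) hr none
  have hlast : Steps (Λ := Option (Lab c)) (machine c N).m 1
      ⟨some none, s, res N (single 0 l')⟩ ⟨none, none, res N (single 0 l')⟩ := by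
    apply Steps.single
    rfl
  have h := hs.trans hlast
  have hcast : ∀ (m : List Bool) (k : Fin (N + 1)) (inst : Decidable (k = reg N 0)),
      (@dite (List Bool) (k = reg N 0) inst (fun _ => m) fun _ => []) = single 0 m k := by
    intro m k inst
    unfold single
    by_cases hk : k = reg N 0
    · rw [dif_pos hk, if_pos]
      rw [hk, reg_val (Nat.zero_le N)]
    · rw [dif_neg hk, if_neg]
      intro h0
      apply hk
      apply Fin.ext
      rw [reg_val (Nat.zero_le N)]
      exact h0
  have hinit : initList (machine c N) l =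
      (⟨some (some (entry c)), none, res N (single 0 l)⟩ :
        TM2.Cfg (fun _ : Fin (N + 1) => Bool) (Option (Lab c)) (Option Bool)) := by
    unfold initList
    congr 1
    funext k
    exact (hcast l k _)
  have hhalt : haltList (machine c N) l' =
      (⟨none, none, res N (single 0 l')⟩ :
        TM2.Cfg (fun _ : Fin (N + 1) => Bool) (Option (Lab c)) (Option Bool)) := by
    unfold haltList
    congr 1
    funext k
    exact (hcast l' k _)
  refine ⟨⟨⟨t + 1, ?_⟩, le_rfl⟩⟩
  rw [hinit]
  show _ = some (haltList (machine c N) l')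
  rw [hhalt]
  exact h

end Pool.Agent.PT
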