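import Pool.Agent.Lib_helper88.PolyTime.Machine

/-!
# Macros for register programs and relocation of programs
-/

set_option autoImplicit false

namespace Pool.Agent.PT

open Function

theorem Exec.cast {c : Cmd} {S S' T T' : Store} {t t' : ℕ} (h : Exec c S S' t)
    (hS : S = T) (hS' : S' = T') (ht : t = t') : Exec c T T' t' := by
  subst hS hS' ht; exact h

/-- execution within a time bound -/
def Runs (c : Cmd) (S S' : Store) (t : ℕ) : Prop := ∃ t' ≤ t, Exec c S S' t'

theorem Exec.runs {c : Cmd} {S S' : Store} {t : ℕ} (h : Exec c S S' t) : Runs c S S' t :=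
  ⟨t, le_rfl, h⟩

theorem Runs.mono {c : Cmd} {S S' : Store} {t t' : ℕ} (h : Runs c S S' t) (ht : t ≤ t') :
    Runs c S S' t' := by
  obtain ⟨s, hs, he⟩ := h
  exact ⟨s, le_trans hs ht, he⟩

theorem Runs.congr {c : Cmd} {S S' T' : Store} {t t' : ℕ} (h : Runs c S S' t) (hS : S' = T')
    (ht : t ≤ t') : Runs c S T' t' := by
  subst hS; exact h.mono ht

theorem Runs.seq {p q : Cmd} {S S' S'' : Store} {t t' : ℕ} (h : Runs p S S' t)
    (h' : Runs q S' S'' t') : Runs (.seq p q) S S'' (t + t') := by
  obtain ⟨s, hs, he⟩ := h
  obtain ⟨s', hs', he'⟩ := h'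
  exact ⟨s + s', by omega, he.seq he'⟩

theorem Runs.ite_t {v : ℕ} {test : Option Bool → Bool} {p q : Cmd} {S S' : Store} {t : ℕ}
    (h : test (S v).head? = true) (h' : Runs p S S' t) : Runs (.ite v test p q) S S' (1 + t) := by
  obtain ⟨s', hs', he'⟩ := h'
  exact ⟨1 + s', by omega, .ite_t h he'⟩

theorem Runs.ite_f {v : ℕ} {test : Option Bool → Bool} {p q : Cmd} {S S' : Store} {t : ℕ}
    (h : test (S v).head? = false) (h' : Runs q S S' t) : Runs (.ite v test p q) S S' (1 + t) := by
  obtain ⟨s', hs', he'⟩ := h'
  exact ⟨1 + s', by omega, .ite_f h he'⟩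

theorem Runs.loop_f {v : ℕ} {test : Option Bool → Bool} {p : Cmd} {S : Store}
    (h : test (S v).head? = false) : Runs (.loop v test p) S S 1 := ⟨1, le_rfl, .loop_f h⟩

theorem Runs.loop_t {v : ℕ} {test : Option Bool → Bool} {p : Cmd} {S S' S'' : Store} {t t' : ℕ}
    (h : test (S v).head? = true) (h1 : Runs p S S' t) (h2 : Runs (.loop v test p) S' S'' t') :
    Runs (.loop v test p) S S'' (1 + t + t') := by
  obtain ⟨s, hs, he⟩ := h1
  obtain ⟨s', hs', he'⟩ := h2
  exact ⟨1 + s + s', by omega, .loop_t h he he'⟩

theorem Runs.push (v : ℕ) (b : Bool) (S : Store) : Runs (.push v b) S (update S v (b :: S v)) 1 :=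
  (Exec.push v b S).runs

theorem Runs.pop (v : ℕ) (S : Store) : Runs (.pop v) S (update S v (S v).tail) 1 :=
  (Exec.pop v S).runs

theorem Runs.skip (S : Store) : Runs .skip S S 1 := (Exec.skip S).runs

theorem Exec.length_le {c : Cmd} {S S' : Store} {t : ℕ} (h : Exec c S S' t) (v : ℕ) :
    (S' v).length ≤ (S v).length + t := by
  induction h with
  | push w b S =>
    by_cases hv : v = w
    · subst hv; simp
    · rw [update_of_ne hv]; omega
  | pop w S =>
    by_cases hv : v = w
    · subst hv; simp; omega
    · rw [update_of_ne hv]; omega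
  | skip S => omega
  | seq _ _ ih1 ih2 => omega
  | ite_t _ _ ih => omega
  | ite_f _ _ ih => omega
  | loop_f _ => omega
  | loop_t _ _ _ ih1 ih2 => omega

theorem Runs.length_le {c : Cmd} {S S' : Store} {t : ℕ} (h : Runs c S S' t) (v : ℕ) :
    (S' v).length ≤ (S v).length + t := by
  obtain ⟨s, hs, he⟩ := h
  have := he.length_le v
  omega

/-- test: the register is nonempty -/
def isne : Option Bool → Bool := fun o => o.isSome

/-- test: the head of the register is `true` -/
def ist : Option Bool → Bool := fun o => o == some true

/-- empty the register `v` -/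
def clear (v : ℕ) : Cmd := .loop v isne (.pop v)

theorem clear_runs (v : ℕ) (S : Store) :
    Runs (clear v) S (update S v []) (2 * (S v).length + 1) := by
  generalize hl : S v = l
  induction l generalizing S with
  | nil =>
    have : update S v [] = S := by rw [← hl, update_eq_self]
    rw [this]
    exact (Runs.loop_f (by rw [hl]; rfl)).mono (by omega)
  | cons b l ih =>
    have h1 := Runs.pop v S
    have h2 := ih (update S v (S v).tail) (by rw [update_self, hl]; rfl)
    rw [update_idem] at h2
    exact (Runs.loop_t (by rw [hl]; rfl) h1 h2).mono (by simp; omega)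

/-- push the head of `src` (if any) to `dst` -/
def pushHead (src dst : ℕ) : Cmd := .ite src ist (.push dst true) (.push dst false)

theorem pushHead_runs (src dst : ℕ) (S : Store) {b : Bool} {l : List Bool} (h : S src = b :: l) :
    Runs (pushHead src dst) S (update S dst (b :: S dst)) 2 := by
  cases b with
  | true => exact Runs.ite_t (by rw [h]; rfl) (Runs.push dst true S)
  | false => exact Runs.ite_f (by rw [h]; rfl) (Runs.push dst false S)

/-- move the content of `src` in reversed order on top of `dst` -/
def moveRev (src dst : ℕ) : Cmd := .loop src isne (.seq (pushHead src dst) (.pop src))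

theorem moveRev_runs {src dst : ℕ} (h : src ≠ dst) (S : Store) :
    Runs (moveRev src dst) S (update (update S src []) dst ((S src).reverse ++ S dst))
      (4 * (S src).length + 1) := by
  generalize hl : S src = l
  induction l generalizing S with
  | nil =>
    refine (Runs.loop_f (by rw [hl]; rfl)).congr ?_ (by omega)
    funext w
    simp only [update_apply]
    split_ifs <;> simp_all
  | cons b l ih =>
    have h1 := pushHead_runs src dst S hl
    have h2 := Runs.pop src (update S dst (b :: S dst))
    rw [update_of_ne h, hl, List.tail_cons] at h2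
    have h3 := ih (update (update S dst (b :: S dst)) src l) (by rw [update_self])
    have e : update (update (update (update S dst (b :: S dst)) src l) src []) dst
        (l.reverse ++ (update (update S dst (b :: S dst)) src l) dst) =
        update (update S src []) dst ((b :: l).reverse ++ S dst) := by
      funext w
      simp only [update_apply]
      split_ifs <;> simp_all
    rw [e] at h3
    exact (Runs.loop_t (by rw [hl]; rfl) (h1.seq h2) h3).mono (by simp; omega)

/-- move the content of `src` in reversed order on top of both `d1` and `d2` -/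
def moveRev2 (src d1 d2 : ℕ) : Cmd :=
  .loop src isne (.seq (.seq (pushHead src d1) (pushHead src d2)) (.pop src))

theorem moveRev2_runs {src d1 d2 : ℕ} (h1 : src ≠ d1) (h2 : src ≠ d2) (h12 : d1 ≠ d2) (S : Store) :
    Runs (moveRev2 src d1 d2) S (update (update (update S src []) d1 ((S src).reverse ++ S d1)) d2
      ((S src).reverse ++ S d2)) (6 * (S src).length + 1) := by
  generalize hl : S src = l
  induction l generalizing S with
  | nil =>
    refine (Runs.loop_f (by rw [hl]; rfl)).congr ?_ (by omega)
    funext w
    simp only [update_apply]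
    split_ifs <;> simp_all
  | cons b l ih =>
    have e1 := pushHead_runs src d1 S hl
    have e2 := pushHead_runs src d2 (update S d1 (b :: S d1)) (b := b) (l := l)
      (by rw [update_of_ne h1, hl])
    rw [update_of_ne h12.symm] at e2
    have e3 := Runs.pop src (update (update S d1 (b :: S d1)) d2 (b :: S d2))
    rw [update_of_ne h2, update_of_ne h1, hl, List.tail_cons] at e3
    have e4 := ih (update (update (update S d1 (b :: S d1)) d2 (b :: S d2)) src l)
      (by rw [update_self])
    have e : update (update (update (update (update (update S d1 (b :: S d1)) d2 (b :: S d2)) src l)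
          src []) d1 (l.reverse ++ update (update (update S d1 (b :: S d1)) d2 (b :: S d2)) src l d1))
          d2 (l.reverse ++ update (update (update S d1 (b :: S d1)) d2 (b :: S d2)) src l d2) =
        update (update (update S src []) d1 ((b :: l).reverse ++ S d1)) d2
          ((b :: l).reverse ++ S d2) := by
      funext w
      simp only [update_apply]
      split_ifs <;> simp_all
    rw [e] at e4
    exact (Runs.loop_t (by rw [hl]; rfl) ((e1.seq e2).seq e3) e4).mono (by simp; omega)

/-- move the content of `src` on top of `dst`, through `tmp` -/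
def move (src dst tmp : ℕ) : Cmd := .seq (moveRev src tmp) (moveRev tmp dst)

theorem move_runs {src dst tmp : ℕ} (h1 : src ≠ dst) (h2 : src ≠ tmp) (h3 : dst ≠ tmp) (S : Store)
    (ht : S tmp = []) :
    Runs (move src dst tmp) S (update (update S src []) dst (S src ++ S dst))
      (8 * (S src).length + 2) := by
  have e1 := moveRev_runs h2 S
  have e2 := moveRev_runs h3.symm (update (update S src []) tmp ((S src).reverse ++ S tmp))
  refine (e1.seq e2).congr ?_ ?_
  · funext w
    simp only [update_apply]
    split_ifs <;> simp_all
  · rw [update_self, ht]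
    simp
    omega

/-- copy the content of `src` on top of `dst`, through `tmp` -/
def copy (src dst tmp : ℕ) : Cmd := .seq (moveRev src tmp) (moveRev2 tmp src dst)

theorem copy_runs {src dst tmp : ℕ} (h1 : src ≠ dst) (h2 : src ≠ tmp) (h3 : dst ≠ tmp) (S : Store)
    (ht : S tmp = []) :
    Runs (copy src dst tmp) S (update S dst (S src ++ S dst)) (10 * (S src).length + 2) := by
  have e1 := moveRev_runs h2 S
  have e2 := moveRev2_runs h2.symm h3.symm h1
    (update (update S src []) tmp ((S src).reverse ++ S tmp))
  refine (e1.seq e2).congr ?_ ?_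
  · funext w
    simp only [update_apply]
    split_ifs <;> simp_all
  · rw [update_self, ht]
    simp
    omega

/-- renaming of registers -/
def Cmd.map (φ : ℕ → ℕ) : Cmd → Cmd
  | .push v b => .push (φ v) b
  | .pop v => .pop (φ v)
  | .skip => .skip
  | .seq p q => .seq (p.map φ) (q.map φ)
  | .ite v test p q => .ite (φ v) test (p.map φ) (q.map φ)
  | .loop v test p => .loop (φ v) test (p.map φ)

theorem exec_map {φ : ℕ → ℕ} (hφ : Injective φ) {c : Cmd} {S S' : Store} {t : ℕ}
    (h : Exec c S S' t) : ∀ T : Store, (∀ v, T (φ v) = S v) →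
      ∃ T' : Store, Exec (c.map φ) T T' t ∧ (∀ v, T' (φ v) = S' v) ∧
        ∀ w, (∀ v, φ v ≠ w) → T' w = T w := by
  induction h with
  | push v b S =>
    intro T hT
    refine ⟨_, Exec.push (φ v) b T, ?_, ?_⟩
    · intro w
      by_cases hw : w = v
      · subst hw; simp [hT]
      · rw [update_of_ne hw, update_of_ne (fun h => hw (hφ h)), hT]
    · intro w hw
      rw [update_of_ne (hw v).symm]
  | pop v S =>
    intro T hT
    refine ⟨_, Exec.pop (φ v) T, ?_, ?_⟩
    · intro w
      by_cases hw : w = v
      · subst hw; simp [hT]
      · rw [update_of_ne hw, update_of_ne (fun h => hw (hφ h)), hT]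
    · intro w hw
      rw [update_of_ne (hw v).symm]
  | skip S =>
    intro T hT
    exact ⟨T, Exec.skip T, hT, fun _ _ => rfl⟩
  | seq _ _ ih1 ih2 =>
    intro T hT
    obtain ⟨T1, a1, b1, c1⟩ := ih1 T hT
    obtain ⟨T2, a2, b2, c2⟩ := ih2 T1 b1
    exact ⟨T2, a1.seq a2, b2, fun w hw => (c2 w hw).trans (c1 w hw)⟩
  | ite_t htest _ ih =>
    intro T hT
    obtain ⟨T1, a1, b1, c1⟩ := ih T hT
    exact ⟨T1, Exec.ite_t (by rw [hT]; exact htest) a1, b1, c1⟩
  | ite_f htest _ ih =>
    intro T hT
    obtain ⟨T1, a1, b1, c1⟩ := ih T hT
    exact ⟨T1, Exec.ite_f (by rw [hT]; exact htest) a1, b1, c1⟩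
  | loop_f htest =>
    intro T hT
    exact ⟨T, Exec.loop_f (by rw [hT]; exact htest), hT, fun _ _ => rfl⟩
  | loop_t htest _ _ ih1 ih2 =>
    intro T hT
    obtain ⟨T1, a1, b1, c1⟩ := ih1 T hT
    obtain ⟨T2, a2, b2, c2⟩ := ih2 T1 b1
    exact ⟨T2, Exec.loop_t (by rw [hT]; exact htest) a1 a2, b2,
      fun w hw => (c2 w hw).trans (c1 w hw)⟩

/-- relocation: register `0` becomes `r`, the others are moved to `K, K+1, ...` -/
def reloc (r K : ℕ) : ℕ → ℕ
  | 0 => r
  | v + 1 => K + v

theorem reloc_injective {r K : ℕ} (h : r < K) : Injective (reloc r K) := by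
  intro a b hab
  cases a <;> cases b <;> simp only [reloc] at hab <;> omega

/-- run a program with its input/output register relocated to `r` and temporaries `≥ K` -/
def Cmd.at (c : Cmd) (r K : ℕ) : Cmd := c.map (reloc r K)

theorem run_at {c : Cmd} {l l' : List Bool} {t r K : ℕ}
    (h : Runs c (single 0 l) (single 0 l') t) (hr : r < K) (S : Store) (hl : S r = l)
    (hS : ∀ w, K ≤ w → S w = []) : Runs (c.at r K) S (update S r l') t := by
  obtain ⟨s, hs, he⟩ := h
  refine ⟨s, hs, ?_⟩
  obtain ⟨T', h1, h2, h3⟩ := exec_map (reloc_injective hr) he S (by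
    intro v
    cases v with
    | zero => simpa [reloc, single] using hl
    | succ v => simp only [reloc, single]; rw [hS _ (by omega)]; simp)
  have : T' = update S r l' := by
    funext w
    by_cases hw : w = r
    · subst hw
      have := h2 0
      simpa [reloc, single] using this
    · rw [update_of_ne hw]
      by_cases hK : K ≤ w
      · have := h2 (w - K + 1)
        simp only [reloc, single] at this
        rw [hS w hK]
        have e : K + (w - K) = w := by omega
        rw [e] at this
        rw [this]
        simp
      · apply h3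
        intro v
        cases v with
        | zero => exact fun h => hw h.symm
        | succ v => simp only [reloc]; omega
  rw [← this]
  exact h1

end Pool.Agent.PT
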